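import Pool.Agent.H856.SM.Pt

set_option autoImplicit false
set_option linter.unusedSectionVars false
set_option linter.unusedVariables false

/-!
# Denominators, the valuation of `p`, complex conjugation
-/

namespace Pool.Agent.H856.SM

open Pool.Agent.H425 Pool.Agent.H856.DW Polynomial

theorem hom_ext {p : ℕ} [hp : Fact p.Prime] {B : Type} [CommRing B] (g h : AA p →+* B)
    (hgh : g (zr p) = h (zr p)) : g = h := by
  refine RingHom.ext fun x => ?_
  obtain ⟨P, rfl⟩ := exists_mk x
  have h1 : ∀ g : AA p →+* B, g (mk p P) = eval₂ (Int.castRingHom B) (g (zr p)) P := by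
    intro g
    have h2 := hom_eval₂ P (Int.castRingHom ℤ[X]) (g.comp (mk p)) X
    have h3 : P.eval₂ (Int.castRingHom ℤ[X]) X = P := by
      have : (Int.castRingHom ℤ[X]) = C := RingHom.ext_int _ _
      rw [this, eval₂_C_X]
    rw [h3, RingHom.comp_apply, RingHom.comp_apply, mk_X] at h2
    rw [h2, RingHom.ext_int ((g.comp (mk p)).comp (Int.castRingHom ℤ[X])) (Int.castRingHom B)]
  rw [h1 g, h1 h, hgh]

section cyc

variable {p : ℕ} [hp : Fact p.Prime] {F : Type} [Field F] [Algebra ℚ F]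
  [IsCyclotomicExtension {p} ℚ F] {ζ : F} (hζ : IsPrimitiveRoot ζ p)

include hζ in
theorem exists_den (x : F) : ∃ b y : AA p, b ≠ 0 ∧
    lft ζ (sum_prim hζ) y = lft ζ (sum_prim hζ) b * x := by
  have hch : CharZero F := charZero_of_injective_algebraMap (algebraMap ℚ F).injective
  have hinj := lft_inj hζ
  have hx : x ∈ Algebra.adjoin ℚ ({ζ} : Set F) := by
    rw [IsCyclotomicExtension.adjoin_primitive_root_eq_top hζ]
    exact Algebra.mem_top
  induction hx using Algebra.adjoin_induction with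
  | mem x hx =>
    rw [Set.mem_singleton_iff] at hx
    exact ⟨1, zr p, one_ne_zero, by rw [lft_zr, hx, map_one, one_mul]⟩
  | algebraMap r =>
    refine ⟨((r.den : ℕ) : AA p), ((r.num : ℤ) : AA p), ?_, ?_⟩
    · intro h
      have h1 := congrArg (lft ζ (sum_prim hζ)) h
      rw [map_natCast, map_zero] at h1
      exact r.den_nz (Nat.cast_eq_zero.1 h1)
    · rw [map_intCast, map_natCast]
      have h1 := congrArg (algebraMap ℚ F) (Rat.den_mul_eq_num r)
      rw [map_mul, map_natCast, map_intCast] at h1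
      exact h1.symm
  | add x y _ _ hx hy =>
    obtain ⟨b, y1, hb, h1⟩ := hx
    obtain ⟨b', y2, hb', h2⟩ := hy
    refine ⟨b * b', y1 * b' + y2 * b, mul_ne_zero hb hb', ?_⟩
    rw [map_add, map_mul, map_mul, map_mul, h1, h2]
    ring
  | mul x y _ _ hx hy =>
    obtain ⟨b, y1, hb, h1⟩ := hx
    obtain ⟨b', y2, hb', h2⟩ := hy
    refine ⟨b * b', y1 * y2, mul_ne_zero hb hb', ?_⟩
    rw [map_mul, map_mul, h1, h2]
    ring

include hζ in
theorem exists_den_poly (H : F[X]) : ∃ (b : AA p) (Ht : (AA p)[X]), b ≠ 0 ∧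
    Ht.map (lft ζ (sum_prim hζ)) = C (lft ζ (sum_prim hζ) b) * H := by
  induction H using Polynomial.induction_on' with
  | add P Q hP hQ =>
    obtain ⟨b, y1, hb, h1⟩ := hP
    obtain ⟨b', y2, hb', h2⟩ := hQ
    refine ⟨b * b', y1 * C b' + y2 * C b, mul_ne_zero hb hb', ?_⟩
    rw [Polynomial.map_add, Polynomial.map_mul, Polynomial.map_mul, h1, h2, map_C, map_C, map_mul,
      C_mul]
    ring
  | monomial n a =>
    obtain ⟨b, y, hb, h⟩ := exists_den hζ a
    refine ⟨b, monomial n y, hb, ?_⟩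
    rw [map_monomial, h, C_mul_monomial]

include hζ in
/-- the valuation of `p` -/
theorem exists_p (K : Type) [Field K] [CharP K p] : ∃ ε : AA p, (p : AA p) = pi p ^ (p - 1) * ε ∧
    rhoK p K ε ≠ 0 := by
  have hch : CharZero F := charZero_of_injective_algebraMap (algebraMap ℚ F).injective
  refine ⟨(-1) ^ (p - 1) * ∏ k ∈ Finset.range (p - 1), ∑ l ∈ Finset.range (k + 1), zr p ^ l, ?_, ?_⟩
  · apply lft_inj hζ
    obtain ⟨n, hn⟩ : ∃ n, p = n + 1 := ⟨p - 1, by have := hp.out.one_lt; omega⟩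
    have h1 : ∏ k ∈ Finset.range (p - 1), (1 - ζ ^ (k + 1)) = (p : F) := by
      have h2 : IsPrimitiveRoot ζ ((p - 1) + 1) := by
        rw [Nat.sub_add_cancel hp.out.one_le]; exact hζ
      rw [h2.prod_one_sub_pow_eq_order, Nat.cast_sub hp.out.one_le]
      push_cast
      ring
    rw [map_natCast, ← h1, map_mul, map_pow, lft_pi, map_mul, map_pow, map_neg, map_one, map_prod,
      ← mul_assoc, ← mul_pow]
    conv_rhs => rw [← Finset.card_range (p - 1), ← Finset.prod_const, Finset.card_range,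
      ← Finset.prod_mul_distrib]
    refine Finset.prod_congr rfl fun k _ => ?_
    rw [map_sum]
    simp only [map_pow, lft_zr]
    have h3 := geom_sum_mul ζ (k + 1)
    linear_combination h3
  · rw [map_mul, map_pow, map_neg, map_one, map_prod]
    refine mul_ne_zero (pow_ne_zero _ (neg_ne_zero.2 one_ne_zero)) ?_
    refine Finset.prod_ne_zero_iff.2 fun k hk => ?_
    rw [Finset.mem_range] at hk
    rw [map_sum]
    simp only [map_pow, rhoK_zr, one_pow, Finset.sum_const, Finset.card_range, nsmul_eq_mul,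
      mul_one]
    intro h
    have h1 := (CharP.cast_eq_zero_iff K p (k + 1)).1 h
    have := Nat.le_of_dvd (by omega) h1
    omega

/-- complex conjugation -/
theorem conj_lft (σ : F →+* ℂ) (x : AA p) :
    (starRingEnd ℂ) (σ (lft ζ (sum_prim hζ) x)) = σ (lft ζ (sum_prim hζ) (tau p x)) := by
  have h1 : ((starRingEnd ℂ).comp (σ.comp (lft ζ (sum_prim hζ)))) =
      (σ.comp (lft ζ (sum_prim hζ))).comp (tau p) := by
    refine hom_ext _ _ ?_
    simp only [RingHom.comp_apply, lft_zr, tau, map_pow]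
    have h2 : (σ ζ) ^ p = 1 := by rw [← map_pow, hζ.pow_eq_one, map_one]
    have h3 : ‖σ ζ‖ = 1 := Complex.norm_eq_one_of_pow_eq_one h2 hp.out.ne_zero
    have h4 : (starRingEnd ℂ) (σ ζ) * σ ζ = 1 := by
      rw [mul_comm, Complex.mul_conj, Complex.normSq_eq_norm_sq, h3]
      norm_num
    have h5 : σ ζ ^ (p - 1) * σ ζ = 1 := by
      rw [← pow_succ, Nat.sub_add_cancel hp.out.one_le, h2]
    have h6 : σ ζ ≠ 0 := by
      intro h
      rw [h, mul_zero] at h4
      exact zero_ne_one h4
    exact mul_right_cancel₀ h6 (h4.trans h5.symm)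
  exact RingHom.congr_fun h1 x

end cyc

end Pool.Agent.H856.SM
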