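import Pool.Agent.H856.DW.Count
import Mathlib.FieldTheory.Finite.Trace

set_option autoImplicit false
set_option linter.unusedSectionVars false
set_option linter.unusedVariables false

/-!
# Exponential sums over the extensions
-/

namespace Pool.Agent.H856.SM

open Pool.Agent.H425 Pool.Agent.H856.DW MvPolynomial

theorem psi_natCast {p : ℕ} (ψ : AddChar (ZMod p) ℂ) (a : ℕ) : ψ (a : ZMod p) = ψ 1 ^ a := by
  rw [← AddChar.map_nsmul_eq_pow, nsmul_eq_mul, mul_one]

/-- counting by the trace over an extension -/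
theorem card_trace {p : ℕ} [hp : Fact p.Prime] {k : Type} [Field k] {K : Type} [Field K] [CharP K p]
    [Algebra k K] {ι : Type} [Fintype ι] [DecidableEq ι] (f : MvPolynomial ι k) (L : Type)
    [Field L] [Fintype L] [Algebra k L] [Algebra (ZMod p) L] (a : ℕ) (hL : Nat.card L = p ^ a)
    (τ : L →ₐ[k] K) (a0 : ℕ) :
    Nat.card {x : ι → K // (∀ i, x i ^ (p ^ a) = x i) ∧
      ∑ t ∈ Finset.range a, (eval x (MvPolynomial.map (algebraMap k K) f)) ^ (p ^ t) = (a0 : K)} =
      (Finset.univ.filter fun x : ι → L =>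
        Algebra.trace (ZMod p) L (aeval x f) = (a0 : ZMod p)).card := by
  classical
  have hfix : ∀ y : L, (τ y) ^ (p ^ a) = τ y := by
    intro y
    rw [← map_pow, ← hL, Nat.card_eq_fintype_card, FiniteField.pow_card]
  have heval : ∀ x : ι → L, eval (fun i => τ (x i)) (MvPolynomial.map (algebraMap k K) f) =
      τ (aeval x f) := by
    intro x
    rw [eval_map, ← aeval_def, comp_aeval_apply]
  have hsurj : ∀ y : K, y ^ (p ^ a) = y → ∃ z, τ z = y := by
    intro y hy
    exact mem_range_of_pow (τ : L →+* K) y (by rw [hL]; exact hy)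
  have hrank : Module.finrank (ZMod p) L = a := by
    have h1 := Module.natCard_eq_pow_finrank (K := ZMod p) (V := L)
    rw [hL, Nat.card_eq_fintype_card, ZMod.card] at h1
    exact (Nat.pow_right_injective hp.out.two_le h1).symm
  let φ : ZMod p →+* K := ZMod.castHom (dvd_refl p) K
  have hφ : ∀ c : ZMod p, τ (algebraMap (ZMod p) L c) = φ c := by
    intro c
    exact RingHom.congr_fun (RingHom.ext_zmod ((τ : L →+* K).comp (algebraMap (ZMod p) L)) φ) c
  have htr : ∀ x : ι → L, ∑ t ∈ Finset.range a, (τ (aeval x f)) ^ (p ^ t) =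
      φ (Algebra.trace (ZMod p) L (aeval x f)) := by
    intro x
    rw [← hφ, FiniteField.algebraMap_trace_eq_sum_pow, map_sum, hrank]
    refine Finset.sum_congr rfl fun t _ => ?_
    rw [map_pow, Nat.card_eq_fintype_card, ZMod.card]
  rw [← Fintype.card_subtype, ← Nat.card_eq_fintype_card]
  symm
  refine Nat.card_congr (Equiv.ofBijective (fun x => ⟨fun i => τ (x.1 i), fun i => hfix _, ?_⟩)
    ⟨?_, ?_⟩)
  · rw [heval, htr, x.2, map_natCast]
  · intro x y h
    have h1 := congrArg Subtype.val h
    apply Subtype.ext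
    funext i
    exact τ.injective (congrFun h1 i)
  · rintro ⟨x, h1, h2⟩
    choose y hy using fun i => hsurj (x i) (h1 i)
    have hx : (fun i => τ (y i)) = x := funext hy
    refine ⟨⟨y, ?_⟩, ?_⟩
    · rw [← hx, heval, htr] at h2
      apply φ.injective
      rw [h2, map_natCast]
    · apply Subtype.ext
      exact hx

/-- the exponential sum over an extension -/
theorem expSum_L {p : ℕ} [hp : Fact p.Prime] {k : Type} [Field k] {K : Type} [Field K] [CharP K p]
    [Algebra k K] {ι : Type} [Fintype ι] [DecidableEq ι] (f : MvPolynomial ι k) (L : Type)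
    [Field L] [Fintype L] [Algebra k L] [Algebra (ZMod p) L] (a : ℕ) (hL : Nat.card L = p ^ a)
    (τ : L →ₐ[k] K) (ψ : AddChar (ZMod p) ℂ) :
    expSum p (MvPolynomial.map (algebraMap k K) f) a (ψ 1) =
      ∑ x : ι → L, ψ (Algebra.trace (ZMod p) L (aeval x f)) := by
  classical
  have hfib : ∑ x : ι → L, ψ (Algebra.trace (ZMod p) L (aeval x f)) =
      ∑ c : ZMod p, ψ c * ((Finset.univ.filter fun x : ι → L =>
        Algebra.trace (ZMod p) L (aeval x f) = c).card : ℂ) := by
    rw [← Finset.sum_fiberwise (Finset.univ : Finset (ι → L))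
      (fun x => Algebra.trace (ZMod p) L (aeval x f))]
    refine Finset.sum_congr rfl fun c _ => ?_
    rw [Finset.sum_congr rfl (g := fun _ => ψ c) (fun x hx => by
      rw [(Finset.mem_filter.1 hx).2]), Finset.sum_const, nsmul_eq_mul, mul_comm]
  rw [hfib, expSum]
  refine Finset.sum_bij (fun (a0 : ℕ) _ => (a0 : ZMod p)) (fun _ _ => Finset.mem_univ _) ?_ ?_ ?_
  · intro a0 h0 a1 h1 h
    rw [Finset.mem_range] at h0 h1
    have h2 := congrArg ZMod.val h
    rwa [ZMod.val_cast_of_lt h0, ZMod.val_cast_of_lt h1] at h2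
  · intro c _
    exact ⟨c.val, Finset.mem_range.2 (ZMod.val_lt c), ZMod.natCast_zmod_val c⟩
  · intro a0 _
    rw [psi_natCast, card_trace f L a hL τ a0]

/-- the points of the covering and the characters -/
theorem points_psi {p : ℕ} [hp : Fact p.Prime] {k : Type} [Field k] [CharP k p]
    {ι : Type} [Fintype ι] [DecidableEq ι] (f : MvPolynomial ι k) (L : Type)
    [Field L] [Fintype L] [Algebra k L] [Algebra (ZMod p) L] :
    (Nat.card {P : (ι → L) × L // P.2 ^ p - P.2 = aeval P.1 f} : ℂ) =
      ∑ ψ : AddChar (ZMod p) ℂ, ∑ x : ι → L, ψ (Algebra.trace (ZMod p) L (aeval x f)) := by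
  classical
  have hLp : CharP L p := charP_of_injective_algebraMap (algebraMap k L).injective p
  obtain ⟨n, hn1, hn2⟩ := FiniteField.card L p
  have hL : Nat.card L = p ^ (n : ℕ) := by rw [Nat.card_eq_fintype_card, hn2]
  let K := AlgebraicClosure L
  have hKp : CharP K p := charP_of_injective_algebraMap (algebraMap L K).injective p
  let _ : Algebra k K := ((algebraMap L K).comp (algebraMap k L)).toAlgebra
  let τ : L →ₐ[k] K := { algebraMap L K with commutes' := fun _ => rfl }
  rw [card_transfer (p := p) (K := K) f L n hL τ, card_fibres]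
  have h1 := card_trace (p := p) (K := K) f L n hL τ 0
  rw [Nat.cast_zero] at h1
  rw [h1, Finset.sum_comm]
  have h2 : ∀ x : ι → L, ∑ ψ : AddChar (ZMod p) ℂ, ψ (Algebra.trace (ZMod p) L (aeval x f)) =
      if Algebra.trace (ZMod p) L (aeval x f) = 0 then (p : ℂ) else 0 := by
    intro x
    rw [AddChar.sum_apply_eq_ite, ZMod.card]
  rw [Finset.sum_congr rfl (fun x _ => h2 x), ← Finset.sum_filter, Finset.sum_const,
    Nat.cast_zero, nsmul_eq_mul]
  push_cast
  ring

end Pool.Agent.H856.SM
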