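import Pool.Agent.H856.SM.Main

set_option autoImplicit false
set_option linter.unusedSectionVars false
set_option linter.unusedVariables false

/-!
# The family `x ^ d - a y ^ d + ...`
-/

namespace Pool.Agent.H856.SM

open Pool.Agent.H425 Pool.Agent.H856.DW Polynomial

variable {p : ℕ} [hp : Fact p.Prime]

/-- the Hasse-Witt matrices of `X ^ d - a` -/
theorem hwm_eq_diag {k : Type} [Field k] [CharP k p]
    (d : ℕ) (hd : 2 ≤ d) (e : ℕ) (he : p - 1 = d * e) (a : k) (w : ℕ) (hw2 : w ≤ d) :
    hwm p d (X ^ d - C a : k[X]) w = Matrix.diagonal (fun i : Fin (w - 1) =>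
      (-a) ^ (e * w - e * (i + 1)) * ((e * w).choose (e * (i + 1)) : k)) := by
  classical
  have hp1 := hp.out.one_lt
  have hN : (p - 1) * w / d = e * w := by
    rw [he, mul_assoc, Nat.mul_div_cancel_left _ (by omega)]
  have hcoeff : ∀ m : ℕ, ((X ^ d - C a : k[X]) ^ (e * w)).coeff m =
      if d ∣ m then (-a) ^ (e * w - m / d) * ((e * w).choose (m / d) : k) else 0 := by
    intro m
    have h1 : (X ^ d - C a : k[X]) ^ (e * w) = expand k d ((X + C (-a)) ^ (e * w)) := by
      rw [map_pow, map_add, expand_X, expand_C, C_neg, sub_eq_add_neg]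
    rw [h1, coeff_expand (by omega)]
    split_ifs with h2
    · rw [coeff_X_add_C_pow]
    · rfl
  ext i j
  rw [hwm, hN, hcoeff, Matrix.diagonal_apply]
  have hi := i.2
  have hj := j.2
  have hpe : p = d * e + 1 := by omega
  have hij : (j : ℕ) + 1 ≤ p * ((i : ℕ) + 1) := by
    have : d ≤ d * e := Nat.le_mul_of_pos_right d (by
      rcases Nat.eq_zero_or_pos e with h | h
      · subst h
        omega
      · exact h)
    calc (j : ℕ) + 1 ≤ p := by omega
      _ ≤ p * ((i : ℕ) + 1) := Nat.le_mul_of_pos_right p (by omega)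
  by_cases h : i = j
  · subst h
    have h1 : p * ((i : ℕ) + 1) - ((i : ℕ) + 1) = d * (e * (i + 1)) := by
      rw [hpe, add_mul, one_mul, Nat.add_sub_cancel, mul_assoc]
    rw [h1, if_pos (dvd_mul_right _ _), Nat.mul_div_cancel_left _ (by omega), if_pos rfl]
  · rw [if_neg h, if_neg]
    intro h1
    apply h
    have h2 : (d : ℤ) ∣ ((p * ((i : ℕ) + 1) - ((j : ℕ) + 1) : ℕ) : ℤ) := by exact_mod_cast h1
    rw [Nat.cast_sub hij, hpe] at h2
    push_cast at h2
    have h3 : (d : ℤ) ∣ (i : ℤ) - (j : ℤ) := by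
      have h4 : (i : ℤ) - (j : ℤ) = ((d * e + 1) * ((i : ℤ) + 1) - ((j : ℤ) + 1)) -
          d * (e * ((i : ℤ) + 1)) := by ring
      rw [h4]
      exact dvd_sub h2 (dvd_mul_right _ _)
    have h5 : (i : ℤ) - (j : ℤ) = 0 := by
      refine Int.eq_zero_of_abs_lt_dvd h3 ?_
      rw [abs_lt]
      constructor <;> omega
    exact Fin.ext (by omega)

theorem prodn_diagonal {A I : Type} [CommRing A] [Fintype I] [DecidableEq I] (v : ℕ → I → A)
    (m : ℕ) : prodn (fun t => Matrix.diagonal (v t)) m =
      Matrix.diagonal (fun i => ∏ t ∈ Finset.range m, v t i) := by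
  induction m with
  | zero =>
    simp only [Finset.prod_range_zero]
    exact Matrix.diagonal_one.symm
  | succ m ih =>
    rw [prodn, ih, Matrix.diagonal_mul_diagonal]
    congr 1
    funext i
    rw [Finset.prod_range_succ, mul_comm]

/-- the norm matrices of `X ^ d - a` -/
theorem nw_eq_diag {k : Type} [Field k] [Finite k] [CharP k p] (d m : ℕ)
    (hcard : Nat.card k = p ^ (m + 1))
    (hd : 2 ≤ d) (e : ℕ) (he : p - 1 = d * e) (a : k) (w : ℕ) (hw2 : w ≤ d) :
    nw p d (X ^ d - C a : k[X]) w m = Matrix.diagonal (fun i : Fin (w - 1) =>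
      ((-a) ^ ((Nat.card k - 1) / d)) ^ (w - (i + 1)) *
        ((e * w).choose (e * (i + 1)) : k) ^ (m + 1)) := by
  have hp1 := hp.out.one_lt
  have h1 : (fun t => (hwm p d (X ^ d - C a : k[X]) w).map (iterateFrobenius k p t)) =
      fun t => Matrix.diagonal (fun i : Fin (w - 1) =>
        ((-a) ^ (e * w - e * (i + 1)) * ((e * w).choose (e * (i + 1)) : k)) ^ (p ^ t)) := by
    funext t
    rw [hwm_eq_diag d hd e he a w hw2, Matrix.diagonal_map (map_zero _)]
    congr 1
  rw [nw, h1, prodn_diagonal]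
  congr 1
  funext i
  have hcast : ∀ (n t : ℕ), ((n : k)) ^ (p ^ t) = (n : k) := by
    intro n t
    have h2 := map_pow (ZMod.castHom (dvd_refl p) k) (n : ZMod p) (p ^ t)
    rw [ZMod.pow_card_pow, map_natCast] at h2
    exact h2.symm
  rw [Finset.prod_congr rfl (fun t _ => mul_pow _ _ _), Finset.prod_mul_distrib]
  congr 1
  · rw [Finset.prod_pow_eq_pow_sum, ← pow_mul, ← pow_mul]
    congr 1
    have h2 : (p - 1) * ∑ t ∈ Finset.range (m + 1), p ^ t = Nat.card k - 1 := by
      rw [hcard, mul_comm]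
      have h3 := geom_sum_mul_add (p - 1) (m + 1)
      rw [Nat.sub_add_cancel hp1.le] at h3
      omega
    have h4 : (Nat.card k - 1) / d = e * ∑ t ∈ Finset.range (m + 1), p ^ t := by
      rw [← h2, he, mul_assoc, Nat.mul_div_cancel_left _ (by omega)]
    rw [h4, ← Nat.mul_sub]
    ring
  · rw [Finset.prod_congr rfl (fun t _ => hcast _ t), Finset.prod_const, Finset.card_range]

/-- **the family** -/
theorem fam {k : Type} [Field k] [Finite k] [CharP k p] (d m : ℕ)
    (hcard : Nat.card k = p ^ (m + 1)) (hd : 2 ≤ d) (hdp : d ∣ p - 1) (hp3 : 3 ≤ p)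
    (hm : p - 1 ∣ m + 1) (a : k) (ha : IsPrimitiveRoot (a ^ ((Nat.card k - 1) / d)) d)
    (w : ℕ) (hw1 : 2 ≤ w) (hw2 : w ≤ d) (x : AlgebraicClosure k) :
    ((nw p d (X ^ d - C a : k[X]) w m).charpoly.map
      (algebraMap k (AlgebraicClosure k))).rootMultiplicity x ≤ 1 := by
  have hp1 := hp.out.one_lt
  obtain ⟨e, he⟩ := hdp
  rw [nw_eq_diag d m hcard hd e he a w hw2, Matrix.charpoly_diagonal]
  refine rootMultiplicity_le_one_of_separable (Separable.map ?_) x
  rw [separable_prod_X_sub_C_iff]
  -- the binomial coefficients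
  have hbin : ∀ i : Fin (w - 1), ((e * w).choose (e * (i + 1)) : k) ^ (m + 1) = 1 := by
    intro i
    have hi := i.2
    have hne : ((e * w).choose (e * (i + 1)) : ZMod p) ≠ 0 := by
      have h1 : e * ((i : ℕ) + 1) ≤ e * w := Nat.mul_le_mul_left _ (by omega)
      have h2 : e * w < p := by
        have h3 : e * w ≤ e * d := Nat.mul_le_mul_left _ (by omega)
        have h4 : e * d = p - 1 := by rw [he, mul_comm]
        omega
      rw [Ne, CharP.cast_eq_zero_iff (ZMod p) p]
      intro h3
      have h5 : p ∣ (e * w).factorial :=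
        h3.trans (Dvd.intro _ ((mul_assoc _ _ _).symm.trans
          (Nat.choose_mul_factorial_mul_factorial h1)))
      rw [hp.out.dvd_factorial] at h5
      omega
    have h6 : ((e * w).choose (e * (i + 1)) : ZMod p) ^ (m + 1) = 1 := by
      obtain ⟨s, hs⟩ := hm
      rw [hs, pow_mul, ZMod.pow_card_sub_one_eq_one hne, one_pow]
    have h7 := congrArg (ZMod.castHom (dvd_refl p) k) h6
    rwa [map_pow, map_natCast, map_one] at h7
  have heven : Even ((Nat.card k - 1) / d) := by
    have h2 : (p - 1) * ∑ t ∈ Finset.range (m + 1), p ^ t = Nat.card k - 1 := by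
      rw [hcard, mul_comm]
      have h3 := geom_sum_mul_add (p - 1) (m + 1)
      rw [Nat.sub_add_cancel hp1.le] at h3
      omega
    have h4 : (Nat.card k - 1) / d = e * ∑ t ∈ Finset.range (m + 1), p ^ t := by
      rw [← h2, he, mul_assoc, Nat.mul_div_cancel_left _ (by omega)]
    rw [h4]
    refine Even.mul_left ?_ _
    have hodd : Odd p := hp.out.odd_of_ne_two (by omega)
    have hme : Even (m + 1) := by
      obtain ⟨s, hs⟩ := hm
      rw [hs]
      refine Even.mul_right ?_ _
      exact Nat.Odd.sub_odd hodd odd_one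
    rw [Finset.even_sum_iff_even_card_odd]
    have h5 : (Finset.range (m + 1)).filter (fun t => Odd (p ^ t)) = Finset.range (m + 1) := by
      refine Finset.filter_true_of_mem fun t _ => hodd.pow
    rw [h5, Finset.card_range]
    exact hme
  have hneg : (-a) ^ ((Nat.card k - 1) / d) = a ^ ((Nat.card k - 1) / d) := heven.neg_pow a
  intro i j hij
  have hi := i.2
  have hj := j.2
  simp only [hbin, mul_one, hneg] at hij
  have h8 := ha.pow_inj (i := w - (i + 1)) (j := w - (j + 1)) (by omega) (by omega) hij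
  exact Fin.ext (by omega)

end Pool.Agent.H856.SM
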