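import Mathlib

set_option autoImplicit false
set_option linter.unusedSectionVars false
set_option linter.unusedVariables false

/-!
# Newton polygons and square factors
-/

namespace Pool.Agent.H856.SM

open Polynomial

theorem exists_coeff {B : Type} [Semiring B] {P : B[X]} (h : P ≠ 0) : ∃ i, P.coeff i ≠ 0 := by
  by_contra hcon
  push Not at hcon
  exact h (Polynomial.ext fun i => by rw [hcon i, coeff_zero])

/-- a uniformizer and a residue map -/
structure Vl {A κ : Type} [CommRing A] [Field κ] (π : A) (ρ : A →+* κ) : Prop where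
  pi_ne : π ≠ 0
  rho_pi : ρ π = 0
  exists_unit : ∀ x : A, x ≠ 0 → ∃ (n : ℕ) (u : A), x = π ^ n * u ∧ ρ u ≠ 0

variable {A κ : Type} [CommRing A] [IsDomain A] [Field κ] {π : A} {ρ : A →+* κ}

theorem Vl.val_le (V : Vl π ρ) {a b : ℕ} {x y : A} (h : π ^ a * x = π ^ b * y) (hx : ρ x ≠ 0) :
    b ≤ a := by
  by_contra hlt
  push Not at hlt
  obtain ⟨c, rfl⟩ := Nat.exists_eq_add_of_lt hlt
  rw [add_assoc, pow_add, mul_assoc] at h
  have h1 := mul_left_cancel₀ (pow_ne_zero a V.pi_ne) h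
  apply hx
  rw [h1, pow_succ, map_mul, map_mul, V.rho_pi, mul_zero, zero_mul]

theorem Vl.val_eq (V : Vl π ρ) {a b : ℕ} {x y : A} (h : π ^ a * x = π ^ b * y) (hx : ρ x ≠ 0)
    (hy : ρ y ≠ 0) : a = b := le_antisymm (V.val_le h.symm hy) (V.val_le h hx)

theorem Vl.dvd_of (V : Vl π ρ) {x : A} (h : ρ x = 0) : π ∣ x := by
  by_cases hx : x = 0
  · rw [hx]; exact dvd_zero _
  · obtain ⟨n, u, h1, h2⟩ := V.exists_unit x hx
    cases n with
    | zero => rw [h1, pow_zero, one_mul] at h; exact absurd h h2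
    | succ n => rw [h1, pow_succ, mul_assoc, mul_left_comm]; exact dvd_mul_right _ _

/-- the primitive part -/
theorem Vl.prim_aux (V : Vl π ρ) (n : ℕ) : ∀ (H : A[X]) (i : ℕ) (u : A),
    H.coeff i = π ^ n * u → ρ u ≠ 0 → ∃ (m : ℕ) (H1 : A[X]), H = C (π ^ m) * H1 ∧
      H1.map ρ ≠ 0 := by
  induction n with
  | zero =>
    intro H i u h1 h2
    refine ⟨0, H, by simp, fun h => h2 ?_⟩
    have h3 := congrArg (fun P : κ[X] => P.coeff i) h
    simp only [coeff_map, coeff_zero] at h3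
    rwa [h1, pow_zero, one_mul] at h3
  | succ n ih =>
    intro H i u h1 h2
    by_cases h : H.map ρ = 0
    · have h3 : C π ∣ H := by
        rw [C_dvd_iff_dvd_coeff]
        intro j
        refine V.dvd_of ?_
        have h4 := congrArg (fun P : κ[X] => P.coeff j) h
        simpa only [coeff_map, coeff_zero] using h4
      obtain ⟨H', hH'⟩ := h3
      have h5 : H'.coeff i = π ^ n * u := by
        apply mul_left_cancel₀ V.pi_ne
        rw [← coeff_C_mul, ← hH', h1, pow_succ]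
        ring
      obtain ⟨m, H1, h6, h7⟩ := ih H' i u h5 h2
      refine ⟨m + 1, H1, ?_, h7⟩
      rw [hH', h6, ← mul_assoc, ← C_mul, ← pow_succ']
    · exact ⟨0, H, by simp, h⟩

theorem Vl.prim (V : Vl π ρ) (H : A[X]) (hH : H ≠ 0) : ∃ (m : ℕ) (H1 : A[X]),
    H = C (π ^ m) * H1 ∧ H1.map ρ ≠ 0 := by
  obtain ⟨i, hi⟩ := exists_coeff hH
  obtain ⟨n, u, h1, h2⟩ := V.exists_unit _ hi
  exact V.prim_aux n H i u h1 h2

theorem Vl.prim_unique (V : Vl π ρ) {m n : ℕ} {H1 H2 : A[X]}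
    (h : C (π ^ m) * H1 = C (π ^ n) * H2) (h1 : H1.map ρ ≠ 0) (h2 : H2.map ρ ≠ 0) :
    m = n ∧ H1 = H2 := by
  have key : ∀ {m n : ℕ} {H1 H2 : A[X]}, C (π ^ m) * H1 = C (π ^ n) * H2 → H1.map ρ ≠ 0 →
      n ≤ m := by
    intro m n H1 H2 h h1
    obtain ⟨i, hi⟩ := exists_coeff h1
    rw [coeff_map] at hi
    have h3 := congrArg (fun P : A[X] => P.coeff i) h
    simp only [coeff_C_mul] at h3
    exact V.val_le h3 hi
  have h3 : m = n := le_antisymm (key h.symm h2) (key h h1)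
  refine ⟨h3, ?_⟩
  rw [h3] at h
  exact mul_left_cancel₀ (C_ne_zero.2 (pow_ne_zero _ V.pi_ne)) h

/-- the reduction at the slope `j` -/
def Red (π : A) (ρ : A →+* κ) (H : A[X]) (j : ℕ) (H1 : A[X]) : Prop :=
  ∃ n, H.comp (C (π ^ j) * X) = C (π ^ n) * H1 ∧ H1.map ρ ≠ 0

theorem comp_ne (V : Vl π ρ) (H : A[X]) (hH : H ≠ 0) (j : ℕ) : H.comp (C (π ^ j) * X) ≠ 0 := by
  obtain ⟨i, hi⟩ := exists_coeff hH
  intro h
  have h1 := congrArg (fun P : A[X] => P.coeff i) h
  simp only [comp_C_mul_X_coeff, coeff_zero] at h1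
  exact (mul_ne_zero hi (pow_ne_zero _ (pow_ne_zero _ V.pi_ne))) h1

theorem Red.exists (V : Vl π ρ) (H : A[X]) (hH : H ≠ 0) (j : ℕ) : ∃ H1, Red π ρ H j H1 := by
  obtain ⟨m, H1, h1, h2⟩ := V.prim _ (comp_ne V H hH j)
  exact ⟨H1, m, h1, h2⟩

theorem Red.unique (V : Vl π ρ) {H : A[X]} {j : ℕ} {H1 H2 : A[X]} (h1 : Red π ρ H j H1)
    (h2 : Red π ρ H j H2) : H1 = H2 := by
  obtain ⟨m, e1, f1⟩ := h1
  obtain ⟨n, e2, f2⟩ := h2
  rw [e1] at e2
  exact (V.prim_unique e2 f1 f2).2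

theorem Red.mul {H G : A[X]} {j : ℕ} {H1 G1 : A[X]} (h1 : Red π ρ H j H1)
    (h2 : Red π ρ G j G1) : Red π ρ (H * G) j (H1 * G1) := by
  obtain ⟨m, e1, f1⟩ := h1
  obtain ⟨n, e2, f2⟩ := h2
  refine ⟨m + n, ?_, ?_⟩
  · rw [mul_comp, e1, e2, pow_add, C_mul]
    ring
  · rw [Polynomial.map_mul]
    exact mul_ne_zero f1 f2

theorem Red.const (V : Vl π ρ) {H : A[X]} {j : ℕ} {H1 : A[X]} (h1 : Red π ρ H j H1) (c : A)
    (hc : c ≠ 0) : ∃ u : A, ρ u ≠ 0 ∧ Red π ρ (C c * H) j (C u * H1) := by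
  obtain ⟨m, e1, f1⟩ := h1
  obtain ⟨n, u, h2, h3⟩ := V.exists_unit c hc
  refine ⟨u, h3, n + m, ?_, ?_⟩
  · rw [mul_comp, C_comp, e1, h2, pow_add]
    simp only [C_mul]
    ring
  · rw [Polynomial.map_mul, map_C]
    exact mul_ne_zero (C_ne_zero.2 h3) f1

theorem Red.coeff {H : A[X]} {j : ℕ} {H1 : A[X]} (h1 : Red π ρ H j H1) :
    ∃ n, ∀ i, π ^ (j * i) * H.coeff i = π ^ n * H1.coeff i := by
  obtain ⟨n, e1, _⟩ := h1
  refine ⟨n, fun i => ?_⟩
  have h2 := congrArg (fun P : A[X] => P.coeff i) e1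
  simp only [comp_C_mul_X_coeff, coeff_C_mul] at h2
  rw [← h2, ← pow_mul, mul_comm]

/-- **monotonicity of the Newton polygon** -/
theorem Red.mono (V : Vl π ρ) {H : A[X]} {j j' : ℕ} (hj : j < j') {H1 H2 : A[X]}
    (h1 : Red π ρ H j H1) (h2 : Red π ρ H j' H2) :
    (H2.map ρ).natDegree ≤ (H1.map ρ).natTrailingDegree := by
  obtain ⟨n, e1⟩ := h1.coeff
  obtain ⟨n', e2⟩ := h2.coeff
  have f1 : (H1.map ρ) ≠ 0 := h1.choose_spec.2
  have f2 : (H2.map ρ) ≠ 0 := h2.choose_spec.2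
  set a := (H1.map ρ).natTrailingDegree with ha
  set i := (H2.map ρ).natDegree with hi
  have ha1 : ρ (H1.coeff a) ≠ 0 := by
    rw [← coeff_map]
    exact trailingCoeff_nonzero_iff_nonzero.2 f1
  have hi1 : ρ (H2.coeff i) ≠ 0 := by
    rw [← coeff_map]
    exact leadingCoeff_ne_zero.2 f2
  by_contra hlt
  push Not at hlt
  obtain ⟨c, hc⟩ := Nat.exists_eq_add_of_lt hj
  have g1 : π ^ (n + (c + 1) * a) * H1.coeff a = π ^ n' * H2.coeff a := by
    rw [← e2 a, pow_add, mul_right_comm, ← e1 a, hc, mul_right_comm, ← pow_add]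
    congr 2
    ring
  have g2 : π ^ n' * H2.coeff i = π ^ (n + (c + 1) * i) * H1.coeff i := by
    rw [← e2 i, pow_add, mul_right_comm, ← e1 i, hc, mul_right_comm, ← pow_add]
    congr 2
    ring
  have k1 := V.val_le g1 ha1
  have k2 := V.val_le g2 hi1
  have k3 : (c + 1) * a < (c + 1) * i := Nat.mul_lt_mul_of_pos_left hlt (Nat.succ_pos c)
  omega

theorem Red.natDegree_le (V : Vl π ρ) {H : A[X]} {j : ℕ} {H1 : A[X]} (h1 : Red π ρ H j H1) :
    (H1.map ρ).natDegree ≤ H.natDegree := by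
  obtain ⟨n, e1⟩ := h1.coeff
  refine natDegree_map_le.trans ?_
  rw [natDegree_le_iff_coeff_eq_zero]
  intro i hi
  have h2 := e1 i
  rw [coeff_eq_zero_of_natDegree_lt hi, mul_zero] at h2
  exact (mul_eq_zero.1 h2.symm).resolve_left (pow_ne_zero _ V.pi_ne)

theorem trail_le (P : κ[X]) : P.natTrailingDegree ≤ P.natDegree := natTrailingDegree_le_natDegree P

theorem Red.ne {H : A[X]} {j : ℕ} {H1 : A[X]} (h1 : Red π ρ H j H1) : H1.map ρ ≠ 0 :=
  h1.choose_spec.2

theorem trail_pow (P : κ[X]) (hP : P ≠ 0) (r : ℕ) :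
    (P ^ r).natTrailingDegree = r * P.natTrailingDegree := by
  induction r with
  | zero => rw [pow_zero, natTrailingDegree_one, zero_mul]
  | succ r ih =>
    rw [pow_succ, natTrailingDegree_mul (pow_ne_zero _ hP) hP, ih]
    ring

theorem Red.one (V : Vl π ρ) (j : ℕ) : Red π ρ (1 : A[X]) j 1 :=
  ⟨0, by rw [one_comp, pow_zero, C_1, one_mul], by rw [Polynomial.map_one]; exact one_ne_zero⟩

theorem Red.pow (V : Vl π ρ) {H : A[X]} {j : ℕ} {H1 : A[X]} (h1 : Red π ρ H j H1) (r : ℕ) :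
    Red π ρ (H ^ r) j (H1 ^ r) := by
  induction r with
  | zero => rw [pow_zero, pow_zero]; exact Red.one V j
  | succ r ih =>
    rw [pow_succ, pow_succ]
    exact ih.mul h1

/-- **powers dividing a polynomial with known reductions** -/
theorem gauss (V : Vl π ρ) (P H G : A[X]) (c : A) (hc : c ≠ 0) (r : ℕ) (hr : 1 ≤ r)
    (hP : C c * P = H ^ r * G)
    (hP0 : P ≠ 0) (d : ℕ) (hd : 2 ≤ d) (j : ℕ → ℕ) (hj : ∀ w, 2 ≤ w → w < d → j w < j (w + 1))
    (Pw : ℕ → A[X]) (hPw : ∀ w, 2 ≤ w → w ≤ d → Red π ρ P (j w) (Pw w))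
    (htop : ((Pw 2).map ρ).natDegree = P.natDegree)
    (hab : ∀ w, 2 ≤ w → w < d → ((Pw (w + 1)).map ρ).natDegree =
      ((Pw w).map ρ).natTrailingDegree)
    (hsq : ∀ w, 2 ≤ w → w ≤ d → ∀ t : κ[X], t ^ r ∣ (Pw w).map ρ →
      t.natTrailingDegree = t.natDegree) (Hd : A[X]) (hHd : Red π ρ H (j d) Hd) :
    (Hd.map ρ).natTrailingDegree = H.natDegree := by
  have hHG : H ^ r * G ≠ 0 := by
    rw [← hP]
    exact mul_ne_zero (C_ne_zero.2 hc) hP0
  have hG0 : G ≠ 0 := right_ne_zero_of_mul hHG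
  have hH0 : H ≠ 0 := fun h => hHG (by rw [h, zero_pow (by omega), zero_mul])
  choose Hw hHw using fun w => Red.exists V H hH0 (j w)
  choose Gw hGw using fun w => Red.exists V G hG0 (j w)
  have hred : ∀ w, 2 ≤ w → w ≤ d → ∃ u : κ, u ≠ 0 ∧ C u * (Pw w).map ρ =
      (Hw w).map ρ ^ r * (Gw w).map ρ := by
    intro w h1 h2
    obtain ⟨u, hu, h3⟩ := (hPw w h1 h2).const V c hc
    have h4 : Red π ρ (H ^ r * G) (j w) (Hw w ^ r * Gw w) :=
      ((hHw w).pow V r).mul (hGw w)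
    rw [hP] at h3
    have h5 := h3.unique V h4
    refine ⟨ρ u, hu, ?_⟩
    have h6 := congrArg (Polynomial.map ρ) h5
    rwa [Polynomial.map_mul, map_C, Polynomial.map_mul, Polynomial.map_pow] at h6
  have hdeg : ∀ w, 2 ≤ w → w ≤ d → ((Pw w).map ρ).natDegree =
      r * ((Hw w).map ρ).natDegree + ((Gw w).map ρ).natDegree := by
    intro w h1 h2
    obtain ⟨u, hu, h3⟩ := hred w h1 h2
    have h4 := congrArg Polynomial.natDegree h3
    rw [natDegree_C_mul hu, natDegree_mul (pow_ne_zero _ (hHw w).ne) (hGw w).ne,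
      natDegree_pow] at h4
    exact h4
  have htr : ∀ w, 2 ≤ w → w ≤ d → ((Pw w).map ρ).natTrailingDegree =
      r * ((Hw w).map ρ).natTrailingDegree + ((Gw w).map ρ).natTrailingDegree := by
    intro w h1 h2
    obtain ⟨u, hu, h3⟩ := hred w h1 h2
    have h4 := congrArg Polynomial.natTrailingDegree h3
    rw [natTrailingDegree_mul (C_ne_zero.2 hu) (hPw w h1 h2).ne, natTrailingDegree_C, zero_add,
      natTrailingDegree_mul (pow_ne_zero _ (hHw w).ne) (hGw w).ne, trail_pow _ (hHw w).ne] at h4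
    exact h4
  have hmon : ∀ w, 2 ≤ w → w ≤ d → ((Hw w).map ρ).natTrailingDegree =
      ((Hw w).map ρ).natDegree := by
    intro w h1 h2
    apply hsq w h1 h2
    obtain ⟨u, hu, h3⟩ := hred w h1 h2
    refine ⟨C u⁻¹ * (Gw w).map ρ, ?_⟩
    have h4 : (Pw w).map ρ = C u⁻¹ * (C u * (Pw w).map ρ) := by
      rw [← mul_assoc, ← C_mul, inv_mul_cancel₀ hu, C_1, one_mul]
    rw [h4, h3]
    ring
  have hPH : P.natDegree = r * H.natDegree + G.natDegree := by
    have h4 := congrArg Polynomial.natDegree hP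
    rw [natDegree_C_mul hc, natDegree_mul (pow_ne_zero _ hH0) hG0, natDegree_pow] at h4
    exact h4
  have haux : ∀ a b A B : ℕ, a ≤ A → b ≤ B → r * a + b = r * A + B → a = A := by
    intro a b A B h1 h2 h3
    have h4 : r * a ≤ r * A := Nat.mul_le_mul_left _ h1
    have h5 : r * a = r * A := by omega
    exact Nat.eq_of_mul_eq_mul_left (by omega) h5
  have hall : ∀ w, 2 ≤ w → w ≤ d → ((Hw w).map ρ).natDegree = H.natDegree := by
    intro w h1
    induction w, h1 using Nat.le_induction with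
    | base =>
      intro h2
      have e1 := hdeg 2 le_rfl hd
      rw [htop, hPH] at e1
      have e2 := (hHw 2).natDegree_le V
      have e3 := (hGw 2).natDegree_le V
      exact haux _ _ _ _ e2 e3 e1.symm
    | succ w h1 ih =>
      intro h2
      have e0 := ih (by omega)
      have e1 := hdeg (w + 1) (by omega) h2
      have e2 := htr w h1 (by omega)
      rw [hab w h1 (by omega), e2, hmon w h1 (by omega), e0] at e1
      have e3 := Red.mono V (hj w h1 (by omega)) (hHw w) (hHw (w + 1))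
      have e4 := Red.mono V (hj w h1 (by omega)) (hGw w) (hGw (w + 1))
      rw [hmon w h1 (by omega), e0] at e3
      exact haux _ _ _ _ e3 e4 e1.symm
  rw [hHd.unique V (hHw d), hmon d hd le_rfl, hall d hd le_rfl]

end Pool.Agent.H856.SM
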