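import Pool.Agent.H856.SM.Den

set_option autoImplicit false
set_option linter.unusedSectionVars false
set_option linter.unusedVariables false

/-!
# Pure roots are simple
-/

namespace Pool.Agent.H856.SM

open Pool.Agent.H425 Pool.Agent.H856.DW Polynomial

section cyc

variable {p : ℕ} [hp : Fact p.Prime] {F : Type} [Field F] [Algebra ℚ F]
  [IsCyclotomicExtension {p} ℚ F] {ζ : F} (hζ : IsPrimitiveRoot ζ p)

/-- **the constant term of the minimal polynomial of a pure number** -/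
theorem const_term (σ : F →+* ℂ) (q : ℕ) (hq0 : q ≠ 0) (γ : ℂ) (hγ : ‖γ‖ = q) (H : F[X])
    (hH : H.Monic)
    (hmin : ∀ Q : F[X], (Q.map σ).eval γ = 0 → H ∣ Q) (hroot : (H.map σ).eval γ = 0)
    (b : AA p) (hb : b ≠ 0) (Ht : (AA p)[X])
    (hHt : Ht.map (lft ζ (sum_prim hζ)) = C (lft ζ (sum_prim hζ) b) * H) :
    Ht.coeff 0 * tau p (Ht.coeff 0) =
      (q : AA p) ^ (2 * H.natDegree) * (Ht.coeff H.natDegree * tau p (Ht.coeff H.natDegree)) := by
  have hch : CharZero F := charZero_of_injective_algebraMap (algebraMap ℚ F).injective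
  have hinj := lft_inj hζ
  set ι := lft ζ (sum_prim hζ) with hι
  set D := H.natDegree with hD
  have hbι : ι b ≠ 0 := fun h => hb (hinj (by rw [h, map_zero]))
  have hcoef : ∀ i, ι (Ht.coeff i) = ι b * H.coeff i := by
    intro i
    have h1 := congrArg (fun P : F[X] => P.coeff i) hHt
    simpa only [coeff_map, coeff_C_mul] using h1
  set W : (AA p)[X] := PP (fun i => tau p (Ht.coeff i) * (q : AA p) ^ (2 * i)) D with hW
  have hγ2 : γ * (starRingEnd ℂ) γ = (q : ℂ) ^ 2 := by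
    rw [Complex.mul_conj, Complex.normSq_eq_norm_sq, hγ]
    push_cast
    ring
  have hWev : ((W.map ι).map σ).eval γ = 0 := by
    rw [hW, PP_map, PP_map, PP, eval_finsetSum]
    have h1 : ∀ i ∈ Finset.range (D + 1), eval γ (C (σ (ι (tau p (Ht.coeff i) *
        (q : AA p) ^ (2 * i)))) * X ^ (D - i)) =
        γ ^ D * (starRingEnd ℂ) (σ (ι b) * (σ (H.coeff i) * γ ^ i)) := by
      intro i hi
      rw [Finset.mem_range] at hi
      rw [eval_mul, eval_C, eval_pow, eval_X, map_mul, map_mul, ← conj_lft hζ σ, ← hι, hcoef,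
        map_pow, map_pow, map_natCast, map_natCast, pow_mul, ← hγ2, mul_pow, map_mul, map_mul,
        map_mul, map_mul, map_pow]
      have h2 : γ ^ D = γ ^ i * γ ^ (D - i) := by
        rw [← pow_add]
        congr 1
        omega
      rw [h2]
      ring
    rw [Finset.sum_congr rfl h1, ← Finset.mul_sum, ← map_sum, ← Finset.mul_sum]
    have h3 : ∑ i ∈ Finset.range (D + 1), σ (H.coeff i) * γ ^ i = (H.map σ).eval γ := by
      rw [eval_map, eval₂_eq_sum_range]
    rw [h3, hroot, mul_zero, map_zero, mul_zero]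
  obtain ⟨Q, hQ⟩ := hmin (W.map ι) hWev
  have hWdeg : (W.map ι).natDegree ≤ D := by
    refine natDegree_map_le.trans ?_
    rw [hW, PP]
    refine natDegree_sum_le_of_forall_le _ _ fun r _ => ?_
    exact (natDegree_C_mul_X_pow_le _ _).trans (Nat.sub_le _ _)
  have hQ0 : Q.natDegree = 0 := by
    by_cases h : Q = 0
    · rw [h, natDegree_zero]
    · rw [hQ, natDegree_mul hH.ne_zero h] at hWdeg
      omega
  rw [eq_C_of_natDegree_eq_zero hQ0] at hQ
  have e1 : ∀ i, i ≤ D → ι (tau p (Ht.coeff i) * (q : AA p) ^ (2 * i)) =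
      H.coeff (D - i) * Q.coeff 0 := by
    intro i hi
    rw [← coeff_mul_C, ← hQ, coeff_map, hW, PP_coeff _ _ _ hi]
  have e2 := e1 0 (Nat.zero_le _)
  have e3 := e1 D le_rfl
  rw [mul_zero, pow_zero, mul_one, Nat.sub_zero, show H.coeff D = 1 from hH, one_mul] at e2
  rw [Nat.sub_self, ← e2] at e3
  apply hinj
  have e4 : ι (Ht.coeff D) = ι b := by
    rw [hcoef, show H.coeff D = 1 from hH, mul_one]
  rw [map_mul, map_mul, map_mul, hcoef 0, e4, mul_assoc, ← e3, map_mul]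
  ring

theorem exists_pow (H P : F[X]) (hH : Irreducible H) (hP : P ≠ 0) :
    ∃ (s : ℕ) (G : F[X]), P = H ^ s * G ∧ ¬ H ∣ G := by
  have h1 : FiniteMultiplicity H P := FiniteMultiplicity.of_not_isUnit hH.not_isUnit hP
  obtain ⟨G, hG, hG2⟩ := h1.exists_eq_pow_mul_and_not_dvd
  exact ⟨_, G, hG, hG2⟩

include hζ in
/-- **the multiplicities of the pure roots** -/
theorem pure_mult (K : Type) [Field K] [CharP K p] (hp3 : 3 ≤ p) (σ : F →+* ℂ) (M μ : ℕ)
    (P : F[X]) (hP : P.Monic)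
    (Pt : (AA p)[X]) (c0 : AA p) (hc0 : c0 ≠ 0)
    (hPt : Pt.map (lft ζ (sum_prim hζ)) = C (lft ζ (sum_prim hζ) c0) * P)
    (d : ℕ) (hd : 2 ≤ d) (j : ℕ → ℕ) (hj : ∀ w, 2 ≤ w → w < d → j w < j (w + 1))
    (hjd : j d = (p - 1) * M)
    (Pw : ℕ → (AA p)[X]) (hPw : ∀ w, 2 ≤ w → w ≤ d → Red (pi p) (rhoK p K) Pt (j w) (Pw w))
    (htop : ((Pw 2).map (rhoK p K)).natDegree = Pt.natDegree)
    (hab : ∀ w, 2 ≤ w → w < d → ((Pw (w + 1)).map (rhoK p K)).natDegree =
      ((Pw w).map (rhoK p K)).natTrailingDegree)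
    (hsq : ∀ w, 2 ≤ w → w ≤ d → ∀ t : K[X], t ^ (μ + 1) ∣ (Pw w).map (rhoK p K) →
      t.natTrailingDegree = t.natDegree)
    (γ : ℂ) (hγ : ‖γ‖ = (p : ℝ) ^ M) : (P.map σ).rootMultiplicity γ ≤ μ := by
  classical
  by_contra hcon
  push Not at hcon
  have hch : CharZero F := charZero_of_injective_algebraMap (algebraMap ℚ F).injective
  have hinj := lft_inj hζ
  have V : Vl (pi p) (rhoK p K) := vl hp3 hζ
  obtain ⟨εp, hεp1, hεp2⟩ := exists_p hζ K
  set ι := lft ζ (sum_prim hζ) with hι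
  let _ : Algebra F ℂ := σ.toAlgebra
  have halg : algebraMap F ℂ = σ := rfl
  have hPσ : P.map σ ≠ 0 := (hP.map σ).ne_zero
  have hr1 : (P.map σ).IsRoot γ := (rootMultiplicity_pos hPσ).1 (by omega)
  have hint : IsIntegral F γ := ⟨P, hP, by
    rw [← eval_map]
    exact hr1⟩
  set H := minpoly F γ with hH
  have hHmon : H.Monic := minpoly.monic hint
  have hHirr : Irreducible H := minpoly.irreducible hint
  have hmin : ∀ Q : F[X], (Q.map σ).eval γ = 0 → H ∣ Q := by
    intro Q hQ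
    refine minpoly.dvd F γ ?_
    rw [aeval_def, ← eval_map]
    exact hQ
  have hroot : (H.map σ).eval γ = 0 := by
    have h1 := minpoly.aeval F γ
    rw [aeval_def, ← eval_map] at h1
    exact h1
  obtain ⟨s, G1, hG1, hG1n⟩ := exists_pow H P hHirr hP.ne_zero
  have hHσ : H.map σ ≠ 0 := (hHmon.map σ).ne_zero
  have hs : μ + 1 ≤ s := by
    have h1 : P.map σ = (H.map σ) ^ s * G1.map σ := by
      rw [hG1, Polynomial.map_mul, Polynomial.map_pow]
    have h2 : (G1.map σ).rootMultiplicity γ = 0 := by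
      apply rootMultiplicity_eq_zero
      intro h3
      exact hG1n (hmin G1 h3)
    have h3 : (H.map σ).rootMultiplicity γ ≤ 1 :=
      rootMultiplicity_le_one_of_separable hHirr.separable.map γ
    have h4 : ∀ s : ℕ, ((H.map σ) ^ s).rootMultiplicity γ = s * (H.map σ).rootMultiplicity γ := by
      intro s
      rw [← count_roots, roots_pow, Multiset.count_nsmul, count_roots]
    rw [h1, rootMultiplicity_mul (by rw [← h1]; exact hPσ), h2, add_zero, h4] at hcon
    have h5 : s * (H.map σ).rootMultiplicity γ ≤ s * 1 := Nat.mul_le_mul_left _ h3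
    omega
  obtain ⟨s', rfl⟩ := Nat.exists_eq_add_of_le hs
  set G2 : F[X] := H ^ s' * G1 with hG2
  have hPG : P = H ^ (μ + 1) * G2 := by
    rw [hG1, hG2, pow_add, mul_assoc]
  obtain ⟨b, Ht, hb, hHt⟩ := exists_den_poly hζ H
  obtain ⟨b', Gt, hb', hGt⟩ := exists_den_poly hζ G2
  rw [← hι] at hHt hGt
  set D := H.natDegree with hD
  have hD1 : 1 ≤ D := hHirr.natDegree_pos
  have hbι : ι b ≠ 0 := fun h => hb (hinj (by rw [h, map_zero]))
  have hHtdeg : Ht.natDegree = D := by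
    have h1 := congrArg Polynomial.natDegree hHt
    rwa [natDegree_map_eq_of_injective hinj, natDegree_C_mul hbι] at h1
  have hprod : C (b ^ (μ + 1) * b') * Pt = Ht ^ (μ + 1) * (C c0 * Gt) := by
    apply Polynomial.map_injective ι hinj
    rw [Polynomial.map_mul, Polynomial.map_mul, Polynomial.map_mul, Polynomial.map_pow, hPt, hHt,
      hGt, map_C, map_C, hPG, map_mul, map_pow, C_mul, C_pow]
    ring
  have hcc : b ^ (μ + 1) * b' ≠ 0 := mul_ne_zero (pow_ne_zero _ hb) hb'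
  have hPt0 : Pt ≠ 0 := by
    intro h
    rw [h, Polynomial.map_zero] at hPt
    have h1 : ι c0 ≠ 0 := fun h => hc0 (hinj (by rw [h, map_zero]))
    exact (mul_ne_zero (C_ne_zero.2 h1) hP.ne_zero) hPt.symm
  have hHt0 : Ht ≠ 0 := by
    intro h
    rw [h, natDegree_zero] at hHtdeg
    omega
  obtain ⟨Hd, hHd⟩ := Red.exists V Ht hHt0 (j d)
  have htr := gauss V Pt Ht (C c0 * Gt) (b ^ (μ + 1) * b') hcc (μ + 1) (by omega) hprod hPt0 d hd j hj Pw hPw htop hab hsq Hd
    hHd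
  rw [hHtdeg] at htr
  obtain ⟨n0, hn0⟩ := hHd.coeff
  have hHd0 : rhoK p K (Hd.coeff 0) = 0 := by
    rw [← coeff_map]
    exact coeff_eq_zero_of_lt_natTrailingDegree (by omega)
  have hHdD : rhoK p K (Hd.coeff D) ≠ 0 := by
    rw [← coeff_map, ← htr]
    exact trailingCoeff_nonzero_iff_nonzero.2 hHd.ne
  obtain ⟨y, hy⟩ := V.dvd_of hHd0
  have hc1 := hn0 0
  have hc2 := hn0 D
  rw [mul_zero, pow_zero, one_mul] at hc1
  have hq : (((p ^ M : ℕ)) : ℝ) = (p : ℝ) ^ M := by push_cast; ring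
  have hct := const_term hζ σ (p ^ M) (pow_ne_zero _ hp.out.ne_zero) γ (by rw [hγ, hq]) H hHmon
    hmin hroot b hb Ht hHt
  rw [← hD] at hct
  obtain ⟨ε, hε1, hε2⟩ := tau_pi (p := p) (K := K)
  -- the two sides
  have hτ : ∀ (a : ℕ) (x : AA p), tau p (pi p ^ a * x) = pi p ^ a * (ε ^ a * tau p x) := by
    intro a x
    rw [map_mul, map_pow, hε1, mul_pow]
    ring
  have k1 : Ht.coeff 0 * tau p (Ht.coeff 0) =
      pi p ^ (2 * n0 + 2) * (y * (ε ^ (n0 + 1) * tau p y)) := by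
    have h1 : Ht.coeff 0 = pi p ^ (n0 + 1) * y := by
      rw [hc1, hy, pow_succ]
      ring
    rw [h1, hτ]
    ring
  have k2 : (pi p ^ (j d * D) * Ht.coeff D) * tau p (pi p ^ (j d * D) * Ht.coeff D) =
      pi p ^ (2 * n0) * (Hd.coeff D * (ε ^ n0 * tau p (Hd.coeff D))) := by
    rw [hc2, hτ]
    ring
  have k3 : ((p ^ M : ℕ) : AA p) ^ (2 * D) = pi p ^ (2 * (j d * D)) * (εp ^ M) ^ (2 * D) := by
    push_cast
    rw [hεp1, hjd]
    ring
  have k4 : pi p ^ (2 * (j d * D) + 2 * n0) * ((εp ^ M) ^ (2 * D) *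
      (Hd.coeff D * (ε ^ n0 * tau p (Hd.coeff D)))) =
      pi p ^ (2 * (j d * D) + 2 * n0 + 2) * (ε ^ (j d * D) * (y * (ε ^ (n0 + 1) * tau p y))) := by
    calc pi p ^ (2 * (j d * D) + 2 * n0) * ((εp ^ M) ^ (2 * D) *
          (Hd.coeff D * (ε ^ n0 * tau p (Hd.coeff D))))
        = (pi p ^ (2 * (j d * D)) * (εp ^ M) ^ (2 * D)) *
          (pi p ^ (2 * n0) * (Hd.coeff D * (ε ^ n0 * tau p (Hd.coeff D)))) := by ring
      _ = ((p ^ M : ℕ) : AA p) ^ (2 * D) *
          ((pi p ^ (j d * D) * Ht.coeff D) * tau p (pi p ^ (j d * D) * Ht.coeff D)) := by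
          rw [k3, k2]
      _ = pi p ^ (j d * D) * (pi p ^ (j d * D) * ε ^ (j d * D)) *
          (((p ^ M : ℕ) : AA p) ^ (2 * D) * (Ht.coeff D * tau p (Ht.coeff D))) := by
          rw [hτ]
          ring
      _ = pi p ^ (j d * D) * (pi p ^ (j d * D) * ε ^ (j d * D)) *
          (pi p ^ (2 * n0 + 2) * (y * (ε ^ (n0 + 1) * tau p y))) := by
          rw [← hct, k1]
      _ = _ := by ring
  have k5 := V.val_le k4 (by
    rw [map_mul, map_mul, map_mul, map_pow, map_pow, map_pow, rhoK_tau]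
    exact mul_ne_zero (pow_ne_zero _ (pow_ne_zero _ hεp2))
      (mul_ne_zero hHdD (mul_ne_zero (pow_ne_zero _ hε2) hHdD)))
  omega

end cyc

end Pool.Agent.H856.SM
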