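import Pool.Agent.H856.SM.Tr

set_option autoImplicit false
set_option linter.unusedSectionVars false
set_option linter.unusedVariables false

/-!
# The blocks at all slopes at most one
-/

namespace Pool.Agent.H856.SM

open Pool.Agent.H425 Pool.Agent.H856.DW Pool.Agent.H856.DW.S0 Polynomial

theorem prodn_smul {A I : Type} [CommRing A] [Fintype I] [DecidableEq I] (a : A)
    (B : ℕ → Matrix I I A) (m : ℕ) : prodn (fun t => a • B t) m = a ^ m • prodn B m := by
  induction m with
  | zero => rw [pow_zero, one_smul]; rfl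
  | succ m ih =>
    rw [prodn, prodn, ih, Matrix.mul_smul, Matrix.smul_mul, smul_smul, pow_succ]

/-- the norm matrix of one level -/
noncomputable def nw (p d : ℕ) [hp : Fact p.Prime] {K : Type} [Field K] [CharP K p] (G : K[X])
    (w m : ℕ) : Matrix (Fin (w - 1)) (Fin (w - 1)) K :=
  prodn (fun t => (hwm p d G w).map (iterateFrobenius K p t)) (m + 1)

/-- the number of indices above a level -/
noncomputable def rr (d e w : ℕ) : ℕ := ∑ k ∈ Finset.univ.image (lv d : (Fin 2 → Fin e) → ℕ),
  if w < k then Fintype.card {i : Fin 2 → Fin e // lv d i = k} else 0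

/-- the reduction at one level -/
noncomputable def UU (p d e : ℕ) [hp : Fact p.Prime] {K : Type} [Field K] [CharP K p] (G : K[X])
    (w m : ℕ) : K[X] :=
  X ^ rr d e w * ((((-(((((p - 1) * w / d).factorial : ℕ) : K)⁻¹)) ^ (m + 1)) •
    nw p d G w m).charpoly.comp (C ((-1) ^ (m + 1)) * X))

namespace S0

variable {p d : ℕ} [hp : Fact p.Prime] {K R : Type} [Field K] [CommRing R] [IsDomain R]
  {S : Setup p d K R} [CharP K p] {N : ℕ} {f : MvPolynomial (Fin 2) K} {e : ℕ}
  {b : (Fin 2 → Fin e) → (Fin 2 →₀ ℕ)}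

theorem loc_w (D : S.BD N f e b) (hpd : 2 * d + 3 < p) (e0 : ℕ) (hdp : p - 1 = d * e0) (m w : ℕ)
    (hw : w ≤ d) (hdet : ∀ w, w < d → (hwm p d (lp d f) w).det ≠ 0) :
    ∃ M : Matrix (Fin 2 → Fin e) (Fin 2 → Fin e) R,
      M.map (S.rd N) = prodn (Setup.Bt D) (m + 1) ∧
      ∀ u : R, S.res u = 1 → ∃ (G : R[X]) (c : K), c ≠ 0 ∧
        M.charpoly.comp (C (S.lam ^ (d * (e0 * w * (m + 1))) * u) * X) =
          C (S.lam ^ (∑ x : Fin (m + 1) × (Fin 2 → Fin e), (p - 1) * min (lv d x.2) w)) * G ∧
        G.map S.res = C c * UU p d e (lp d f) w m := by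
  have hde := D.hde
  have hp1 := hp.out.one_lt
  have hd : 0 < d := by omega
  have hdp' : d ∣ p - 1 := ⟨e0, hdp⟩
  choose z hz1 hz2 using exists_z D hpd
  obtain ⟨G, u, hu, h1, h2⟩ := spec_w S hd m w hw (lv d) z (Hm S f b) hz2
    (fun t i j => Hm_off D hdp' t i j) (fun t i j => Hm_high t i j) (by
      intro k hk t
      have hkd : k < d := lt_of_lt_of_le hk hw
      obtain ⟨σ, hσ⟩ := exists_level D k hkd.le
      rw [Hm_level D hpd hdp' k hkd.le σ hσ t, Matrix.det_submatrix_equiv_self, Matrix.det_smul]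
      refine mul_ne_zero (pow_ne_zero _ (inv_ne_zero ?_)) ?_
      · refine fac_ne hp.out ?_
        have h3 : (p - 1) * k / d ≤ (p - 1) * d / d :=
          Nat.div_le_div_right (Nat.mul_le_mul_left _ hkd.le)
        rw [Nat.mul_div_cancel _ hd] at h3
        omega
      · have h3 := RingHom.map_det (iterateFrobenius K p t) (hwm p d (lp d f) k)
        rw [RingHom.mapMatrix_apply] at h3
        rw [← h3, iterateFrobenius_def]
        exact pow_ne_zero _ (hdet k hkd))
  refine ⟨prodn (scl S (lv d) z) (m + 1), ?_, ?_⟩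
  · rw [← prodn_map]
    congr 1
    funext t
    ext i j
    rw [Matrix.map_apply, hz1]
    rfl
  · intro v hv
    refine ⟨G.comp (C ((-1) ^ (m + 1) * v) * X), u * ((-1) ^ (m + 1)) ^ rr d e w,
      mul_ne_zero hu (pow_ne_zero _ (pow_ne_zero _ (neg_ne_zero.2 one_ne_zero))), ?_, ?_⟩
    · have e1 := congrArg (fun P : R[X] => P.comp (C ((-1) ^ (m + 1) * v) * X)) h1
      simp only [mul_comp, C_comp, comp_assoc, X_comp] at e1
      rw [← e1]
      have e5 : (C (S.lam ^ (d * (e0 * w * (m + 1))) * v) : R[X]) =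
          C ((-(S.lam ^ ((p - 1) * w))) ^ (m + 1)) * C ((-1) ^ (m + 1) * v) := by
        rw [← C_mul]
        congr 1
        rw [neg_pow (S.lam ^ ((p - 1) * w)), ← pow_mul]
        have e2 : d * (e0 * w * (m + 1)) = (p - 1) * w * (m + 1) := by
          rw [hdp]; ring
        rw [e2]
        have e3 : ((-1 : R) ^ (m + 1)) * (-1) ^ (m + 1) = 1 := by
          rw [← mul_pow]; norm_num
        calc S.lam ^ ((p - 1) * w * (m + 1)) * v
            = (((-1 : R) ^ (m + 1)) * (-1) ^ (m + 1)) * (S.lam ^ ((p - 1) * w * (m + 1)) * v) := by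
              rw [e3, one_mul]
          _ = _ := by ring
      rw [e5, mul_assoc]
    · rw [Polynomial.map_comp, h2, Polynomial.map_mul, map_C, map_X, map_mul, hv, mul_one, map_pow,
        map_neg, map_one, mul_comp, mul_comp, C_comp, pow_comp, X_comp, mul_pow, UU]
      obtain ⟨σ, hσ⟩ := exists_level D w hw
      have h3 : (fun t => -(Hm S f b t).submatrix
          (Subtype.val : {i : Fin 2 → Fin e // lv d i = w} → _) Subtype.val) =
          fun t => ((-(((((p - 1) * w / d).factorial : ℕ) : K)⁻¹)) •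
            (hwm p d (lp d f) w).map (iterateFrobenius K p t)).submatrix σ σ := by
        funext t
        rw [Hm_level D hpd hdp' w hw σ hσ t]
        ext i j
        simp only [Matrix.neg_apply, Matrix.submatrix_apply, Matrix.smul_apply, smul_eq_mul, neg_mul]
      rw [h3, prodn_reindex, prodn_smul, ← nw]
      have h4 := Matrix.charpoly_reindex σ.symm
        ((-(((((p - 1) * w / d).factorial : ℕ) : K)⁻¹)) ^ (m + 1) • nw p d (lp d f) w m)
      rw [Matrix.reindex_apply, Equiv.symm_symm] at h4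
      rw [h4, ← C_pow, C_mul, rr]
      ring

end S0

end Pool.Agent.H856.SM
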