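import Pool.Agent.H856.SM.Key
import Pool.Agent.H856.SM.ESumL
import Pool.Agent.H856.DW.Main

set_option autoImplicit false
set_option linter.unusedSectionVars false
set_option linter.unusedVariables false

/-!
# The eigenvalues for one character
-/

namespace Pool.Agent.H856.SM

open Pool.Agent.H425 Pool.Agent.H856.DW Pool.Agent.H856.DW.S0 Polynomial

theorem nw_map {k K : Type} [Field k] [Field K] (p d : ℕ) [hp : Fact p.Prime] [CharP k p] [CharP K p]
    (φ : k →+* K) (G : k[X]) (w m : ℕ) : nw p d (G.map φ) w m = (nw p d G w m).map φ := by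
  rw [nw, nw, ← prodn_map]
  congr 1
  funext t
  rw [hwm_map]
  ext i j
  simp only [Matrix.map_apply, iterateFrobenius_def, map_pow]

theorem nw_det {K : Type} [Field K] (p d : ℕ) [hp : Fact p.Prime] [CharP K p] (G : K[X]) (w m : ℕ)
    (h : (hwm p d G w).det ≠ 0) : (nw p d G w m).det ≠ 0 := by
  rw [nw, det_prodn]
  refine Finset.prod_ne_zero_iff.2 fun t _ => ?_
  have h3 := RingHom.map_det (iterateFrobenius K p t) (hwm p d G w)
  rw [RingHom.mapMatrix_apply] at h3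
  rw [← h3, iterateFrobenius_def]
  exact pow_ne_zero _ h

/-- **pure eigenvalues are simple**, with a given cyclotomic field -/
theorem main_psi (p : ℕ) [hp : Fact p.Prime] (F : Type) [Field F] [Algebra ℚ F]
    [IsCyclotomicExtension {p} ℚ F] {k : Type} [Field k] [Finite k] [CharP k p] (d m : ℕ)
    (hcard : Nat.card k = p ^ (m + 1))
    (hd : 2 ≤ d) (hdp : d ∣ p - 1) (hpd : 2 * d + 3 < p) (f : MvPolynomial (Fin 2) k)
    (hf : f.totalDegree ≤ d) (hdeg : (lp d f).coeff d ≠ 0) (h0 : (lp d f).coeff 0 ≠ 0)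
    (hsep : (lp d f).Separable)
    (hord : ∀ w, 2 ≤ w → w < d → (hwm p d (lp d f) w).det ≠ 0)
    (ψ : AddChar (ZMod p) ℂ) (hψ : ψ ≠ 1) [DecidableEq ℂ] :
    ∃ Γ : Multiset ℂ, Γ.card = (d - 1) ^ 2 ∧
      (∀ (L : Type) [Field L] [Fintype L] [Algebra k L] [Algebra (ZMod p) L],
        ∑ x : Fin 2 → L, ψ (Algebra.trace (ZMod p) L (MvPolynomial.aeval x f)) =
          (Γ.map (fun γ => γ ^ Module.finrank k L)).sum) ∧
      ∀ μ : ℕ, (∀ w, 2 ≤ w → w ≤ d → ∀ x : AlgebraicClosure k, x ≠ 0 →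
          ((nw p d (lp d f) w m).charpoly.map (algebraMap k (AlgebraicClosure k))).rootMultiplicity
            x ≤ μ) → ∀ γ : ℂ, ‖γ‖ = Nat.card k → Γ.count γ ≤ μ := by
  have := Fintype.ofFinite k
  let K := AlgebraicClosure k
  have hKp : CharP K p := charP_of_injective_algebraMap (algebraMap k K).injective p
  have hp1 := hp.out.one_lt
  obtain ⟨e0, he0⟩ := hdp
  have he00 : 1 ≤ e0 := by
    by_contra h
    have : e0 = 0 := by omega
    rw [this, mul_zero] at he0
    omega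
  set fK := MvPolynomial.map (algebraMap k K) f with hfK
  have hfKdeg : fK.totalDegree ≤ d := (totalDegree_map_le' _ f).trans hf
  have hlp : lp d fK = (lp d f).map (algebraMap k K) := lp_map _ d f
  have hdegK : (lp d fK).coeff d ≠ 0 := by
    rw [hlp, coeff_map]
    exact (_root_.map_ne_zero _).2 hdeg
  have h0K : (lp d fK).coeff 0 ≠ 0 := by
    rw [hlp, coeff_map]
    exact (_root_.map_ne_zero _).2 h0
  have hsepK : (lp d fK).Separable := by
    rw [hlp]
    exact hsep.map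
  have hordK : ∀ w, w < d → (hwm p d (lp d fK) w).det ≠ 0 := by
    intro w hw
    by_cases h2 : 2 ≤ w
    · rw [hlp]
      exact hwm_det_map _ p d _ w (hord w h2 hw)
    · exact hwm_small p d _ w (by omega)
  have hdK : (d : K) ≠ 0 := by
    intro h
    have h1 := (CharP.cast_eq_zero_iff K p d).1 h
    have := Nat.le_of_dvd (by omega) h1
    omega
  have hsm := smooth d hd hdK fK hdegK h0K hsepK
  have hfrob : ∀ s : ℕ, ∀ e, MvPolynomial.coeff e fK ^ (p ^ ((m + 1) * s)) =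
      MvPolynomial.coeff e fK := by
    intro s e
    rw [hfK, MvPolynomial.coeff_map, ← map_pow, pow_mul, ← hcard, Nat.card_eq_fintype_card,
      FiniteField.pow_card_pow]
  have hfm : ∀ e, MvPolynomial.coeff e fK ^ (p ^ (m + 1)) = MvPolynomial.coeff e fK := by
    intro e
    have := hfrob 1 e
    rwa [mul_one] at this
  have hdom : IsDomain (Constr.RR p (d * (p - 1)) K) :=
    Constr.RR_domain p _ K (Nat.mul_pos (by omega) (by omega))
  let S := Constr.setup p K d (by omega) hdom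
  -- the cyclotomic field
  have hFch : CharZero F := charZero_of_injective_algebraMap (algebraMap ℚ F).injective
  obtain ⟨σ⟩ : Nonempty (F →+* ℂ) := by
    have : FiniteDimensional ℚ F := IsCyclotomicExtension.finiteDimensional {p} ℚ F
    have : Algebra.IsAlgebraic ℚ F := inferInstance
    exact ⟨((IsAlgClosed.lift : F →ₐ[ℚ] ℂ) : F →+* ℂ)⟩
  obtain ⟨ζ, hζ, hσζ⟩ : ∃ ζ : F, IsPrimitiveRoot ζ p ∧ σ ζ = ψ 1 := by
    have hζ0 : IsPrimitiveRoot (IsCyclotomicExtension.zeta p ℚ F) p :=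
      IsCyclotomicExtension.zeta_spec p ℚ F
    have h1 : IsPrimitiveRoot (σ (IsCyclotomicExtension.zeta p ℚ F)) p :=
      hζ0.map_of_injective σ.injective
    have h2 : ψ 1 ^ p = 1 := by
      rw [← psi_natCast, CharP.cast_eq_zero, AddChar.map_zero_eq_one]
    obtain ⟨i, hi, hi2⟩ := h1.eq_pow_of_pow_eq_one h2
    have hi0 : i ≠ 0 := by
      rintro rfl
      rw [pow_zero] at hi2
      exact ((AddChar.zmod_char_ne_one_iff p ψ).1 hψ) hi2.symm
    refine ⟨IsCyclotomicExtension.zeta p ℚ F ^ i, ?_, by rw [map_pow, hi2]⟩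
    exact hζ0.pow_of_coprime i (Nat.coprime_of_lt_prime hi0 hi hp.out).symm
  have hp5 : 5 ≤ p := by omega
  have hd1 : 1 ≤ d := by omega
  have hfKd : fK.totalDegree = d := totalDegree_eq d fK hfKdeg hdegK
  set n := (d - 1) ^ 2 with hn
  have hcardI : n = Fintype.card (Fin 2 → Fin (d - 1)) := by
    rw [Fintype.card_pi]
    simp [hn]
  let Se : ℕ → F := fun s => expSum p fK ((m + 1) * s) ζ
  set c : ℕ → F := cseq Se with hcdef
  have hc0 : c 0 = 1 := cseq_zero Se
  have hcs : ∀ r, ((r + 1 : ℕ) : F) * c (r + 1) =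
      -∑ j ∈ Finset.range (r + 1), expSum p fK ((m + 1) * (j + 1)) ζ * c (r - j) := cseq_succ Se
  have htr := trans S hd hpd ⟨e0, he0⟩ fK hfKd hsm hordK m hfm ζ hζ c hc0 hcs
  obtain ⟨b, hb⟩ := S.exists_BD hp5 hd fK hfKd hsm
  obtain ⟨Pt, hPt1, hPt2, hPt3⟩ := S0.exists_Pt S hp5 hd hd1 fK b hb m hfm ζ hζ c hc0 hcs n hcardI
  have hPn : 1 ≤ n := by
    rw [hn]
    exact Nat.one_le_pow _ _ (by omega)
  have hPt0 : Pt ≠ 0 := by
    intro h
    rw [h, natDegree_zero] at hPt2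
    omega
  have V : Vl (pi p) (rhoK p K) := vl (by omega) hζ
  have hinj := lft_inj hζ
  have hred : ∀ w, ∃ Pw : (AA p)[X], 2 ≤ w → w ≤ d → ∃ c : K, c ≠ 0 ∧
      Red (pi p) (rhoK p K) Pt (e0 * w * (m + 1)) Pw ∧
      Pw.map (rhoK p K) = C c * UU p d (d - 1) (lp d fK) w m := by
    intro w
    by_cases h1 : 2 ≤ w ∧ w ≤ d
    · have hU : UU p d (d - 1) (lp d fK) w m ≠ 0 := UU_ne p d _ _ w m
      obtain ⟨Pw, c, h2, h3, h4⟩ := S0.red_w S hp5 hd hd1 hpd e0 he0 fK b hb m hordK V Pt hPt0 n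
        hPt3 w h1.2 hU
      exact ⟨Pw, fun _ _ => ⟨c, h2, h3, h4⟩⟩
    · exact ⟨0, fun h2 h3 => absurd ⟨h2, h3⟩ h1⟩
  choose Pw hPw using hred
  have hlvcard : ∀ w, w ≤ d → Fintype.card {i : Fin 2 → Fin (d - 1) // lv d i = w} = w - 1 := by
    intro w hw
    obtain ⟨τ, _⟩ := exists_level (hb 1 le_rfl) w hw
    rw [Fintype.card_congr τ, Fintype.card_fin]
  have hrr : ∀ w, w + 1 ≤ d → rr d (d - 1) w = rr d (d - 1) (w + 1) + w := by
    intro w hw
    rw [rr_succ, hlvcard (w + 1) hw, Nat.add_sub_cancel]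
  have hshape : ∀ μ : ℕ, (∀ w, 2 ≤ w → w ≤ d → ∀ x : K, x ≠ 0 →
      (nw p d (lp d fK) w m).charpoly.rootMultiplicity x ≤ μ) → ∀ w, 2 ≤ w → w ≤ d →
      ((Pw w).map (rhoK p K)).natDegree = rr d (d - 1) w + (w - 1) ∧
      (∀ t : K[X], t ^ (μ + 1) ∣ (Pw w).map (rhoK p K) → t.natTrailingDegree = t.natDegree) ∧
      (w < d → ((Pw w).map (rhoK p K)).natTrailingDegree = rr d (d - 1) w) := by
    intro μ hμ w h1 h2
    obtain ⟨c, h3, h4, h5⟩ := hPw w h1 h2
    obtain ⟨e1, e2, e3⟩ := UU_shape p d (d - 1) (lp d fK) w m μ (by omega) h2 (hμ w h1 h2) c h3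
    rw [h5]
    exact ⟨e1, e2, fun h6 => e3 (nw_det p d _ w m (hordK w h6))⟩
  have hmono : ∀ w, 2 ≤ w → w < d → e0 * w * (m + 1) < e0 * (w + 1) * (m + 1) := by
    intro w _ _
    refine Nat.mul_lt_mul_of_pos_right ?_ (Nat.succ_pos m)
    exact Nat.mul_lt_mul_of_pos_left (Nat.lt_succ_self w) he00
  have hkey : ∀ μ : ℕ, (∀ w, 2 ≤ w → w ≤ d → ∀ x : K, x ≠ 0 →
      (nw p d (lp d fK) w m).charpoly.rootMultiplicity x ≤ μ) →
      ∀ γ : ℂ, ‖γ‖ = (p : ℝ) ^ (m + 1) → ((PP c n).map σ).rootMultiplicity γ ≤ μ := by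
    intro μ hμ γ hγ
    refine pure_mult hζ K (by omega) σ (m + 1) μ (PP c n) (PP_monic c n hc0).1 Pt
      ((n.factorial : ℕ) : AA p) ?_ ?_ d hd (fun w => e0 * w * (m + 1)) hmono ?_ Pw
      (fun w h1 h2 => ?_) ?_ ?_ (fun w h1 h2 => (hshape μ hμ w h1 h2).2.1) γ hγ
    · intro h
      have h1 := congrArg (lft ζ (sum_prim hζ)) h
      rw [map_natCast, map_zero] at h1
      exact Nat.factorial_ne_zero n (Nat.cast_eq_zero.1 h1)
    · rw [hPt1, map_natCast (lft ζ (sum_prim hζ))]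
    · rw [he0, mul_comm e0]
    · obtain ⟨c, _, h4, _⟩ := hPw w h1 h2
      exact h4
    · rw [(hshape μ hμ 2 le_rfl hd).1, hPt2, hcardI, ← rr_one d (d - 1) hd1, hrr 1 (by omega)]
    · intro w h1 h2
      rw [(hshape μ hμ (w + 1) (by omega) (by omega)).1, (hshape μ hμ w h1 (by omega)).2.2 h2,
        hrr w (by omega), Nat.add_sub_cancel]
  let cC : ℕ → ℂ := fun r => σ (c r)
  have hcC0 : cC 0 = 1 := by
    change σ (c 0) = 1
    rw [hc0, map_one]
  have hcC : ∀ r, ((r + 1 : ℕ) : ℂ) * cC (r + 1) =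
      -∑ l ∈ Finset.range (r + 1), σ (Se (l + 1)) * cC (r - l) := by
    intro r
    have h1 := congrArg σ (hcs r)
    rw [map_mul, map_natCast, map_neg, map_sum] at h1
    rw [h1]
    congr 1
    exact Finset.sum_congr rfl fun l _ => map_mul _ _ _
  have hPPmap : (PP c n).map σ = PP cC n := PP_map σ c n
  refine ⟨(PP cC n).roots, ?_, ?_, ?_⟩
  · have h1 := PP_monic cC n hcC0
    exact (IsAlgClosed.splits (PP cC n)).natDegree_eq_card_roots.symm.trans h1.2
  · intro L _ _ _ _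
    have hfin : Module.Finite k L := inferInstance
    set s := Module.finrank k L with hs
    have hs1 : 1 ≤ s := Module.finrank_pos
    have hLcard : Nat.card L = p ^ ((m + 1) * s) := by
      rw [Module.natCard_eq_pow_finrank (K := k), hcard, pow_mul]
    have h1 := expSum_L (p := p) (K := K) f L ((m + 1) * s) hLcard
      (IsAlgClosed.lift : L →ₐ[k] K) ψ
    obtain ⟨s', hs'⟩ := Nat.exists_eq_add_of_le' hs1
    have h2 := roots_powerSum (fun s => σ (Se s)) cC n hcC0 hcC (by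
      intro r hr
      change σ (c r) = 0
      rw [htr.1 r hr, map_zero]) s'
    rw [← hs'] at h2
    rw [h2, ← h1, map_expSum, hσζ]
  · intro μ hμ γ hγ
    have h1 := hkey μ (by
      intro w hw1 hw2 x hx
      rw [hlp, nw_map, Matrix.charpoly_map]
      exact hμ w hw1 hw2 x hx) γ (by rw [hγ, hcard]; push_cast; ring)
    rwa [hPPmap, ← count_roots] at h1

end Pool.Agent.H856.SM
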