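import Pool.Agent.H856.SM.Sq
import Pool.Agent.H856.DW.Roots

set_option autoImplicit false
set_option linter.unusedSectionVars false
set_option linter.unusedVariables false

/-!
# The reductions of the L-polynomial
-/

namespace Pool.Agent.H856.SM

open Pool.Agent.H425 Pool.Agent.H856.DW Pool.Agent.H856.DW.S0 Polynomial

theorem PP_map {A B : Type} [CommRing A] [CommRing B] (g : A →+* B) (c : ℕ → A) (n : ℕ) :
    (PP c n).map g = PP (fun r => g (c r)) n := by
  rw [PP, PP, Polynomial.map_sum]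
  refine Finset.sum_congr rfl fun r _ => ?_
  rw [Polynomial.map_mul, map_C, Polynomial.map_pow, map_X]

theorem PP_congr {A : Type} [CommRing A] (c c' : ℕ → A) (n : ℕ) (h : ∀ r, r ≤ n → c r = c' r) :
    PP c n = PP c' n := by
  rw [PP, PP]
  refine Finset.sum_congr rfl fun r hr => ?_
  rw [h r (by rw [Finset.mem_range] at hr; omega)]

theorem PP_C_mul {A : Type} [CommRing A] (a : A) (c : ℕ → A) (n : ℕ) :
    PP (fun r => a * c r) n = C a * PP c n := by
  rw [PP, PP, Finset.mul_sum]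
  refine Finset.sum_congr rfl fun r hr => ?_
  rw [C_mul, mul_assoc]

namespace S0

variable {p d : ℕ} [hp : Fact p.Prime] {K R : Type} [Field K] [CommRing R] [IsDomain R]
  {F : Type} [Field F] [Algebra ℚ F] [IsCyclotomicExtension {p} ℚ F]

theorem exists_Pt (S : Setup p d K R) [CharP K p] [IsAlgClosed K] (hp5 : 5 ≤ p) (hd : 2 ≤ d) (hd1 : 1 ≤ d)
    (f : MvPolynomial (Fin 2) K) (b : (Fin 2 → Fin (d - 1)) → (Fin 2 →₀ ℕ))
    (hb : ∀ N, 1 ≤ N → S.BD N f (d - 1) b) (m : ℕ)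
    (hfm : ∀ s, MvPolynomial.coeff s f ^ (p ^ (m + 1)) = MvPolynomial.coeff s f)
    (ζ : F) (hζ : IsPrimitiveRoot ζ p) (c : ℕ → F) (hc0 : c 0 = 1)
    (hc : ∀ r, ((r + 1 : ℕ) : F) * c (r + 1) =
      -∑ j ∈ Finset.range (r + 1), expSum p f ((m + 1) * (j + 1)) ζ * c (r - j)) (n : ℕ)
    (hn : n = Fintype.card (Fin 2 → Fin (d - 1))) :
    ∃ Pt : (AA p)[X], Pt.map (lft ζ (sum_prim hζ)) = C ((n.factorial : ℕ) : F) * PP c n ∧
      Pt.natDegree = n ∧
      ∀ N (hN : 1 ≤ N) (D : S.BD N f (d - 1) b), Pt.map (phi S hp5 hd1 N) =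
        C ((n.factorial : ℕ) : S.Q N) * (prodn (Setup.Bt D) (m + 1)).charpoly := by
  have hch : CharZero F := charZero_of_injective_algebraMap (algebraMap ℚ F).injective
  have hcom : ∀ N, 1 ≤ N → ∀ D : S.BD N f (d - 1) b, ∀ r, ∃ P : ℤ[X],
      aeval ζ P = (r.factorial : F) * c r ∧
      aeval (S.zet N) P = (r.factorial : S.Q N) * (cs (prodn (Setup.Bt D) (m + 1))).coeff r := by
    intro N hN D r
    refine exists_common (fun j => Epoly p f ((m + 1) * j)) (-1) ζ (S.zet N) c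
      (fun r => (cs (prodn (Setup.Bt D) (m + 1))).coeff r) hc0 (cs_zero _) ?_ ?_ r
    · intro r
      simp only [aeval_Epoly]
      rw [hc r]
      push_cast
      ring
    · intro r
      have h1 := Setup.rec_cs D (by rw [Fintype.card_fin]; omega) (m + 1) (by omega) hfm r
      rw [h1, Fintype.card_fin]
      norm_num
  choose P hP1 hP2 using hcom 1 le_rfl (hb 1 le_rfl)
  have hinj := lft_inj hζ
  have hx : ∀ N (hN : 1 ≤ N) (D : S.BD N f (d - 1) b) (r : ℕ), phi S hp5 hd1 N (mk p (P r)) =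
      (r.factorial : S.Q N) * (cs (prodn (Setup.Bt D) (m + 1))).coeff r := by
    intro N hN D r
    obtain ⟨P', h1, h2⟩ := hcom N hN D r
    have h3 : mk p (P r) = mk p P' := by
      apply hinj
      rw [lft_aeval, lft_aeval, h1, hP1]
    rw [h3, phi, lft_mk, ← h2, aeval_def, RingHom.ext_int (Int.castRingHom (S.Q N)) _]
  have hfac : ∀ r, r ≤ n → n.factorial = n.descFactorial (n - r) * r.factorial := by
    intro r hr
    have := Nat.factorial_mul_descFactorial (n := n) (k := n - r) (by omega)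
    rw [← this, mul_comm]
    congr 2
    omega
  have hmap : (PP (fun r => ((n.descFactorial (n - r) : ℕ) : AA p) * mk p (P r)) n).map
      (lft ζ (sum_prim hζ)) = C ((n.factorial : ℕ) : F) * PP c n := by
    rw [PP_map, ← PP_C_mul]
    refine PP_congr _ _ _ fun r hr => ?_
    rw [map_mul, lft_aeval, hP1, map_natCast, hfac r hr]
    push_cast
    ring
  refine ⟨_, hmap, ?_, ?_⟩
  · have h1 := congrArg Polynomial.natDegree hmap
    rw [natDegree_map_eq_of_injective hinj, natDegree_C_mul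
      (Nat.cast_ne_zero.2 (Nat.factorial_ne_zero n)), (PP_monic c n hc0).2] at h1
    exact h1
  · intro N hN D
    have hnt : Nontrivial (S.Q N) := nontrivial_Q hN
    rw [PP_map, charpoly_PP, ← PP_C_mul, ← hn]
    refine PP_congr _ _ _ fun r hr => ?_
    rw [map_mul, hx N hN D, map_natCast, hfac r hr]
    push_cast
    ring

/-- **the reductions** -/
theorem red_w (S : Setup p d K R) [CharP K p] (hp5 : 5 ≤ p) (hd : 2 ≤ d) (hd1 : 1 ≤ d)
    (hpd : 2 * d + 3 < p) (e0 : ℕ) (hdp : p - 1 = d * e0)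
    (f : MvPolynomial (Fin 2) K) (b : (Fin 2 → Fin (d - 1)) → (Fin 2 →₀ ℕ))
    (hb : ∀ N, 1 ≤ N → S.BD N f (d - 1) b) (m : ℕ)
    (hdet : ∀ w, w < d → (hwm p d (lp d f) w).det ≠ 0)
    (V : Vl (pi p) (rhoK p K)) (Pt : (AA p)[X]) (hPt0 : Pt ≠ 0) (n : ℕ)
    (hPt : ∀ N (hN : 1 ≤ N) (D : S.BD N f (d - 1) b), Pt.map (phi S hp5 hd1 N) =
        C ((n.factorial : ℕ) : S.Q N) * (prodn (Setup.Bt D) (m + 1)).charpoly)
    (w : ℕ) (hw : w ≤ d) (hU : UU p d (d - 1) (lp d f) w m ≠ 0) :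
    ∃ (Pw : (AA p)[X]) (c : K), c ≠ 0 ∧ Red (pi p) (rhoK p K) Pt (e0 * w * (m + 1)) Pw ∧
      Pw.map (rhoK p K) = C c * UU p d (d - 1) (lp d f) w m := by
  obtain ⟨a, v, hv1, hv2⟩ := exists_pow_mul S n.factorial (Nat.factorial_ne_zero n)
  refine transfer S hp5 hd1 (by omega) V Pt hPt0 _ a v hv2
    (∑ x : Fin (m + 1) × (Fin 2 → Fin (d - 1)), (p - 1) * min (lv d x.2) w) _ hU ?_
  intro N hN
  obtain ⟨M, h1, h2⟩ := loc_w (hb N hN) hpd e0 hdp m w hw hdet
  refine ⟨M.charpoly, ?_, h2⟩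
  rw [hPt N hN (hb N hN), ← h1, Polynomial.map_mul, map_C, ← hv1, map_natCast]
  congr 1
  exact Matrix.charpoly_map M (S.rd N)

end S0

end Pool.Agent.H856.SM
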