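import Pool.Agent.H856.DW.Trans

set_option autoImplicit false
set_option linter.unusedSectionVars false
set_option linter.unusedVariables false

/-!
# The characteristic polynomial at all slopes at most one
-/

namespace Pool.Agent.H856.SM

open Pool.Agent.H425 Pool.Agent.H856.DW Polynomial

variable {p d : ℕ} [hp : Fact p.Prime] {K R : Type} [Field K] [CommRing R] [IsDomain R]
  (S : Setup p d K R) {I : Type} [Fintype I] [DecidableEq I]

/-- the diagonal after scaling -/
noncomputable def dw (w : ℕ) (lev : I → ℕ) (t : ℕ) (i : I) : R[X] :=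
  -C (S.lam ^ ((p - 1) * (w - min (lev i) w))) * (if t = 0 then X else 1)

/-- the rest of the matrix -/
def zw (w : ℕ) (lev : I → ℕ) (z : ℕ → Matrix I I R) (t : ℕ) : Matrix I I R :=
  fun i j => S.lam ^ ((p - 1) * (min (lev i) d - min (lev i) w)) * z t i j

theorem scaled_w (m w : ℕ) (hw : w ≤ d) (lev : I → ℕ) (z : ℕ → Matrix I I R) :
    (prodn (scl S lev z) (m + 1)).charpoly.comp
      (C ((-(S.lam ^ ((p - 1) * w))) ^ (m + 1)) * X) =
      C (S.lam ^ (∑ x : Fin (m + 1) × I, (p - 1) * min (lev x.2) w)) *
        (cyc m (dw S w lev) (fun t => (zw S w lev z t).map C)).det := by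
  rw [comp_det]
  have h1 := cyc_det m (fun t => C (-(S.lam ^ ((p - 1) * w)) : R) * (if t = 0 then X else 1))
    (fun t => (scl S lev z t).map (C : R →+* R[X]))
  have h2 : (∏ t ∈ Finset.range (m + 1), C (-(S.lam ^ ((p - 1) * w)) : R) *
      (if t = 0 then X else 1)) = C ((-(S.lam ^ ((p - 1) * w))) ^ (m + 1)) * X := by
    rw [Finset.prod_mul_distrib, Finset.prod_const, Finset.card_range, ← C_pow]
    congr 1
    rw [Finset.prod_range_succ', Finset.prod_eq_one]
    · rw [if_pos rfl, one_mul]
    · intro t _
      rw [if_neg (Nat.succ_ne_zero t)]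
  have h3 : prodn (fun t => (scl S lev z t).map (C : R →+* R[X])) (m + 1) =
      (prodn (scl S lev z) (m + 1)).map C := prodn_map C _ _
  rw [h2, h3] at h1
  rw [← h1]
  have h4 : cyc m (fun t (_ : I) => C (-(S.lam ^ ((p - 1) * w)) : R) * (if t = 0 then X else 1))
      (fun t => (scl S lev z t).map (C : R →+* R[X])) =
      Matrix.of fun x y => C (S.lam ^ ((p - 1) * min (lev x.2) w)) *
        (cyc m (dw S w lev) (fun t => (zw S w lev z t).map C)) x y := by
    ext1 x y
    rw [Matrix.of_apply, cyc, cyc, mul_sub]
    congr 1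
    · by_cases hxy : x = y
      swap
      · rw [if_neg hxy, if_neg hxy, mul_zero]
      rw [if_pos hxy, if_pos hxy, dw]
      generalize (if (x.1 : ℕ) = 0 then (X : R[X]) else 1) = v
      have h5 : (S.lam ^ ((p - 1) * w) : R) = S.lam ^ ((p - 1) * min (lev x.2) w) *
          S.lam ^ ((p - 1) * (w - min (lev x.2) w)) := by
        rw [← pow_add, ← mul_add, Nat.add_sub_cancel' (min_le_right _ _)]
      rw [h5, C_neg, C_mul]
      ring
    · rw [mul_ite, mul_zero]
      congr 1
      rw [Matrix.map_apply, Matrix.map_apply, scl, zw, ← C_mul, ← mul_assoc, ← pow_add, ← mul_add,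
        Nat.add_sub_cancel' (min_le_min le_rfl hw)]
  rw [h4, Matrix.det_mul_column, ← map_prod, Finset.prod_pow_eq_pow_sum]

theorem map_cyc_dw (m w : ℕ) (hw : w ≤ d) (lev : I → ℕ) (hp1 : 1 < p) (z : ℕ → Matrix I I R)
    (H : ℕ → Matrix I I K) (hz : ∀ t i j, S.res (z t i j) = H t i j)
    (hhigh : ∀ t i j, d < lev i → H t i j = 0) :
    ((cyc m (dw S w lev) (fun t => (zw S w lev z t).map C)).det).map S.res =
      (cyc m (fun t i => (if lev i < w then 0 else -(if t = 0 then X else 1) : K[X]))
        (fun t => (Matrix.of fun i j => if lev i ≤ w then H t i j else 0).map C)).det := by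
  rw [← coe_mapRingHom, RingHom.map_det]
  congr 1
  ext1 x y
  rw [RingHom.mapMatrix_apply, Matrix.map_apply, cyc, cyc, map_sub, apply_ite (mapRingHom S.res),
    apply_ite (mapRingHom S.res), map_zero]
  congr 1
  · congr 1
    rw [dw, coe_mapRingHom, Polynomial.map_mul, Polynomial.map_neg, map_C, map_pow, S.res_lam]
    by_cases h : lev x.2 < w
    · rw [if_pos h, zero_pow]
      · simp
      · have h1 : min (lev x.2) w = lev x.2 := min_eq_left h.le
        rw [h1]
        exact Nat.mul_ne_zero (by omega) (by omega)
    · rw [if_neg h, min_eq_right (not_lt.1 h), Nat.sub_self, mul_zero, pow_zero, C_1]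
      split_ifs
      · rw [map_X]; ring
      · rw [Polynomial.map_one]; ring
  · congr 1
    rw [Matrix.map_apply, Matrix.map_apply, coe_mapRingHom, map_C, zw, Matrix.of_apply, map_mul,
      map_pow, S.res_lam, hz]
    by_cases h : lev x.2 ≤ w
    · rw [if_pos h, min_eq_left h, min_eq_left (h.trans hw), Nat.sub_self, mul_zero, pow_zero,
        one_mul]
    · rw [if_neg h]
      push Not at h
      by_cases h2 : w = d
      · rw [hhigh _ _ _ (by omega), mul_zero]
      · rw [zero_pow, zero_mul]
        refine Nat.mul_ne_zero (by omega) ?_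
        have h3 : min (lev x.2) w = w := min_eq_right h.le
        have h4 : w < min (lev x.2) d := lt_min h (by omega)
        omega

/-- **the leading term at the slope `w / d`** -/
theorem spec_w (hd : 0 < d) (m w : ℕ) (hw : w ≤ d) (lev : I → ℕ) (z : ℕ → Matrix I I R)
    (H : ℕ → Matrix I I K) (hz : ∀ t i j, S.res (z t i j) = H t i j)
    (hH : ∀ t i j, lev j < lev i → H t i j = 0) (hhigh : ∀ t i j, d < lev i → H t i j = 0)
    (hdet : ∀ k, k < w → ∀ t,
      ((H t).submatrix (Subtype.val : {i // lev i = k} → I) Subtype.val).det ≠ 0) :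
    ∃ (G : R[X]) (u : K), u ≠ 0 ∧
      (prodn (scl S lev z) (m + 1)).charpoly.comp
        (C ((-(S.lam ^ ((p - 1) * w))) ^ (m + 1)) * X) =
        C (S.lam ^ (∑ x : Fin (m + 1) × I, (p - 1) * min (lev x.2) w)) * G ∧
      G.map S.res = C u * X ^ (∑ k ∈ Finset.univ.image lev,
          if w < k then Fintype.card {i // lev i = k} else 0) *
        (prodn (fun t => -(H t).submatrix (Subtype.val : {i // lev i = w} → I) Subtype.val)
          (m + 1)).charpoly := by
  have hp1 := hp.out.one_lt
  have h1 := map_cyc_dw S m w hw lev hp1 z H hz hhigh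
  set H' : ℕ → Matrix I I K := fun t => Matrix.of fun i j => if lev i ≤ w then H t i j else 0
    with hH'
  have happ : ∀ t i j, H' t i j = if lev i ≤ w then H t i j else 0 := fun t i j => rfl
  have h2 := cyc_levels m lev (fun t k => (if k < w then 0 else -(if t = 0 then X else 1) : K[X]))
    (fun t => (H' t).map C) (by
      intro t i j hij
      rw [Matrix.map_apply, happ, hH t i j hij, ite_self, C_0])
  rw [h2] at h1
  set P := (prodn (fun t => -(H t).submatrix (Subtype.val : {i // lev i = w} → I) Subtype.val)
          (m + 1)).charpoly with hP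
  have hsame : ∀ k, k ≤ w → ∀ t, (H' t).submatrix (Subtype.val : {i // lev i = k} → I)
      (Subtype.val : {i // lev i = k} → I) = (H t).submatrix Subtype.val Subtype.val := by
    intro k hk t
    ext i j
    rw [Matrix.submatrix_apply, Matrix.submatrix_apply, happ, if_pos]
    rw [i.2]; exact hk
  have h3 : ∀ k, ∃ (u : K), u ≠ 0 ∧
      ((∏ t ∈ Finset.range (m + 1), (if k < w then 0 else -(if t = 0 then X else 1) : K[X])) •
        (1 : Matrix {i // lev i = k} {i // lev i = k} K[X]) -
        prodn (fun t => ((H' t).map C).submatrix Subtype.val Subtype.val) (m + 1)).det =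
      C u * X ^ (if w < k then Fintype.card {i // lev i = k} else 0) * (if k = w then P else 1) := by
    intro k
    have hpr : ¬ k < w → (∏ t ∈ Finset.range (m + 1),
        (if k < w then 0 else -(if t = 0 then X else 1) : K[X])) = (-1) ^ (m + 1) * X := by
      intro hk
      have e1 : ∀ t ∈ Finset.range (m + 1), (if k < w then 0 else -(if t = 0 then X else 1) : K[X]) =
          (-1) * (if t = 0 then X else 1) := by
        intro t _
        rw [if_neg hk, neg_one_mul]
      rw [Finset.prod_congr rfl e1, Finset.prod_mul_distrib, Finset.prod_const, Finset.card_range]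
      congr 1
      rw [Finset.prod_range_succ', Finset.prod_eq_one]
      · rw [if_pos rfl, one_mul]
      · intro t _
        rw [if_neg (Nat.succ_ne_zero t)]
    have hsub : (fun t => ((H' t).map (C : K →+* K[X])).submatrix
        (Subtype.val : {i // lev i = k} → I) (Subtype.val : {i // lev i = k} → I)) =
        fun t => ((H' t).submatrix Subtype.val Subtype.val).map C := rfl
    rw [hsub]
    rcases lt_trichotomy k w with h | h | h
    · obtain ⟨u, hu, hu2⟩ := block_low m
        (fun t => (H' t).submatrix (Subtype.val : {i // lev i = k} → I) Subtype.val) (by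
          intro t
          rw [hsame k h.le t]
          exact hdet k h t)
      refine ⟨u, hu, ?_⟩
      have hz0 : (∏ t ∈ Finset.range (m + 1),
          (if k < w then 0 else -(if t = 0 then X else 1) : K[X])) = 0 := by
        rw [Finset.prod_range_succ, if_pos h, mul_zero]
      rw [hz0, hu2, if_neg (by omega : ¬ w < k), if_neg (by omega : ¬ k = w), pow_zero, mul_one,
        mul_one]
    · subst h
      refine ⟨(-1) ^ ((m + 1) * Fintype.card {i // lev i = k}),
        pow_ne_zero _ (neg_ne_zero.2 one_ne_zero), ?_⟩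
      have h5 : (fun t => (H' t).submatrix (Subtype.val : {i // lev i = k} → I)
          (Subtype.val : {i // lev i = k} → I)) = fun t => (H t).submatrix Subtype.val Subtype.val := by
        funext t
        exact hsame k le_rfl t
      have h6 : (fun t => ((H' t).submatrix (Subtype.val : {i // lev i = k} → I)
          (Subtype.val : {i // lev i = k} → I)).map (C : K →+* K[X])) =
          fun t => ((H t).submatrix Subtype.val Subtype.val).map C := by
        funext t
        rw [hsame k le_rfl t]
      rw [h6, hpr (lt_irrefl _), block_mid, if_pos rfl, if_neg (lt_irrefl _), pow_zero, mul_one]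
    · refine ⟨((-1) ^ (m + 1)) ^ Fintype.card {i // lev i = k},
        pow_ne_zero _ (pow_ne_zero _ (neg_ne_zero.2 one_ne_zero)), ?_⟩
      rw [hpr (by omega), prodn_zero_mat, sub_zero, Matrix.det_smul, Matrix.det_one, mul_one,
        if_pos h, if_neg (by omega : ¬ k = w), mul_one, mul_pow, C_pow, C_pow, C_neg, C_1]
      intro t
      ext1 i j
      rw [Matrix.map_apply, Matrix.submatrix_apply, happ, if_neg, C_0, Matrix.zero_apply]
      rw [i.2]
      omega
  choose u hu hF using h3
  refine ⟨_, ∏ k ∈ Finset.univ.image lev, u k, Finset.prod_ne_zero_iff.2 fun k _ => hu k,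
    scaled_w S m w hw lev z, ?_⟩
  rw [h1, Finset.prod_congr rfl (fun k _ => hF k), Finset.prod_mul_distrib, Finset.prod_mul_distrib,
    ← map_prod, Finset.prod_pow_eq_pow_sum, Finset.prod_ite_eq']
  congr 1
  split_ifs with h
  · rfl
  · have : IsEmpty {i // lev i = w} := ⟨fun i => h (Finset.mem_image.2 ⟨i.1, Finset.mem_univ _, i.2⟩)⟩
    rw [hP, Matrix.charpoly, Matrix.det_isEmpty]

end Pool.Agent.H856.SM
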