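import Pool.Agent.H856.SM.Gauss
import Pool.Agent.H856.SM.Spec

set_option autoImplicit false
set_option linter.unusedSectionVars false
set_option linter.unusedVariables false

/-!
# The ring `ℤ[ζ_p]`
-/

namespace Pool.Agent.H856.SM

open Pool.Agent.H425 Pool.Agent.H856.DW Polynomial

/-- the ring `ℤ[ζ_p]` -/
abbrev AA (p : ℕ) : Type := AdjoinRoot (cyclotomic p ℤ)

/-- the root of unity -/
noncomputable def zr (p : ℕ) : AA p := AdjoinRoot.root (cyclotomic p ℤ)

/-- the uniformizer -/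
noncomputable def pi (p : ℕ) : AA p := zr p - 1

section lift

variable {p : ℕ} [hp : Fact p.Prime] {B : Type} [CommRing B]

/-- the quotient map -/
noncomputable def mk (p : ℕ) : ℤ[X] →+* AA p := AdjoinRoot.mk (cyclotomic p ℤ)

theorem mk_X : mk p X = zr p := AdjoinRoot.mk_X

theorem eval_cyc (z : B) (hz : ∑ i ∈ Finset.range p, z ^ i = 0) :
    eval₂ (Int.castRingHom B) z (cyclotomic p ℤ) = 0 := by
  rw [cyclotomic_prime, eval₂_finsetSum]
  simp only [eval₂_pow, eval₂_X]
  exact hz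

theorem sum_zr : ∑ i ∈ Finset.range p, zr p ^ i = 0 := by
  have h1 : mk p (cyclotomic p ℤ) = 0 := AdjoinRoot.mk_self
  have h2 := congrArg (mk p) (cyclotomic_prime ℤ p)
  rw [h1, map_sum] at h2
  simp only [map_pow, mk_X] at h2
  exact h2.symm

/-- the universal property -/
noncomputable def lft (z : B) (hz : ∑ i ∈ Finset.range p, z ^ i = 0) : AA p →+* B :=
  AdjoinRoot.lift (Int.castRingHom B) z (eval_cyc z hz)

theorem lft_zr (z : B) (hz : ∑ i ∈ Finset.range p, z ^ i = 0) : lft z hz (zr p) = z := by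
  rw [lft, zr, AdjoinRoot.lift_root]

theorem lft_mk (z : B) (hz : ∑ i ∈ Finset.range p, z ^ i = 0) (P : ℤ[X]) :
    lft z hz (mk p P) = eval₂ (Int.castRingHom B) z P := AdjoinRoot.lift_mk _ _

theorem lft_aeval (z : B) (hz : ∑ i ∈ Finset.range p, z ^ i = 0) (P : ℤ[X]) :
    lft z hz (mk p P) = aeval z P := by
  rw [lft_mk, aeval_def]
  congr 1

theorem exists_mk (x : AA p) : ∃ P : ℤ[X], x = mk p P := by
  obtain ⟨P, hP⟩ := AdjoinRoot.mk_surjective x
  exact ⟨P, hP.symm⟩

theorem lft_pi (z : B) (hz : ∑ i ∈ Finset.range p, z ^ i = 0) : lft z hz (pi p) = z - 1 := by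
  rw [pi, map_sub, lft_zr, map_one]

end lift

instance domAA (p : ℕ) [hp : Fact p.Prime] : IsDomain (AA p) :=
  AdjoinRoot.isDomain_of_prime (cyclotomic.irreducible hp.out.pos).prime

section field

variable {p : ℕ} [hp : Fact p.Prime] {F : Type} [Field F] [Algebra ℚ F]
  [IsCyclotomicExtension {p} ℚ F] {ζ : F}

theorem sum_prim {F : Type} [Field F] {ζ : F} (hζ : IsPrimitiveRoot ζ p) :
    ∑ i ∈ Finset.range p, ζ ^ i = 0 := hζ.geom_sum_eq_zero hp.out.one_lt

theorem lft_inj [CharZero F] (hζ : IsPrimitiveRoot ζ p) :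
    Function.Injective (lft ζ (sum_prim hζ)) := by
  rw [injective_iff_map_eq_zero]
  intro x hx
  obtain ⟨P, rfl⟩ := exists_mk x
  rw [lft_aeval] at hx
  have h1 := zet_of_zeta (A := AA p) hζ (zr p) sum_zr P hx
  have h2 := hom_eval₂ P (Int.castRingHom ℤ[X]) (mk p) X
  have h3 : P.eval₂ (Int.castRingHom ℤ[X]) X = P := by
    have : (Int.castRingHom ℤ[X]) = C := RingHom.ext_int _ _
    rw [this, eval₂_C_X]
  rw [h3, mk_X] at h2
  rw [h2]
  rw [aeval_def] at h1
  rw [← h1]
  congr 1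

variable {K : Type} [Field K] [CharP K p]

theorem sum_one_K : ∑ i ∈ Finset.range p, (1 : K) ^ i = 0 := by
  simp

/-- the residue map -/
noncomputable def rhoK (p : ℕ) [hp : Fact p.Prime] (K : Type) [Field K] [CharP K p] : AA p →+* K :=
  lft 1 sum_one_K

theorem rhoK_mk (P : ℤ[X]) : rhoK p K (mk p P) = ((P.eval 1 : ℤ) : K) := by
  rw [rhoK, lft_mk, eval₂_at_one]
  rfl

theorem rhoK_zr : rhoK p K (zr p) = 1 := by
  rw [rhoK, lft_zr]

theorem vl (hp3 : 3 ≤ p) (hζ : IsPrimitiveRoot ζ p) : Vl (pi p) (rhoK p K) where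
  pi_ne := by
    intro h
    have hch : CharZero F := charZero_of_injective_algebraMap (algebraMap ℚ F).injective
    have h1 := congrArg (lft ζ (sum_prim hζ)) h
    rw [lft_pi, map_zero, sub_eq_zero] at h1
    exact hζ.ne_one (by omega) h1
  rho_pi := by
    rw [pi, map_sub, rhoK_zr, map_one, sub_self]
  exists_unit := by
    intro x hx
    have hch : CharZero F := charZero_of_injective_algebraMap (algebraMap ℚ F).injective
    obtain ⟨P, rfl⟩ := exists_mk x
    have h1 : aeval ζ P ≠ 0 := by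
      intro h
      apply hx
      apply lft_inj hζ
      rw [lft_aeval, h, map_zero]
    obtain ⟨a, ha, U, W, h2, h3⟩ := factor p hp3 hζ
      (padicValRat p (Algebra.norm ℚ (aeval ζ P))).toNat P h1 (Int.self_le_toNat _)
    refine ⟨a, mk p U, ?_, ?_⟩
    · conv_lhs => rw [h2]
      rw [map_add, map_mul, map_mul, map_pow, map_sub, mk_X, map_one, map_sum]
      simp only [map_pow, mk_X]
      rw [sum_zr, zero_mul, add_zero, pi]
    · rw [rhoK_mk]
      intro h4
      exact h3 ((CharP.intCast_eq_zero_iff K p _).1 h4)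

end field

section tau

variable {p : ℕ} [hp : Fact p.Prime]

theorem sum_conj : ∑ i ∈ Finset.range p, (zr p ^ (p - 1)) ^ i = 0 := by
  have h1 : (zr p) ^ p = 1 := by
    have h2 := geom_sum_mul (zr p) p
    rw [sum_zr, zero_mul] at h2
    exact (sub_eq_zero.1 h2.symm)
  have h3 : (zr p ^ (p - 1) - 1) ≠ 0 := by
    intro h
    have h4 : zr p ^ (p - 1) = 1 := sub_eq_zero.1 h
    have h5 : zr p = 1 := by
      have h6 : zr p ^ (p - 1 + 1) = 1 := by
        rw [Nat.sub_add_cancel hp.out.one_le]; exact h1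
      rwa [pow_succ, h4, one_mul] at h6
    have h7 := sum_zr (p := p)
    rw [h5] at h7
    simp only [one_pow, Finset.sum_const, Finset.card_range, nsmul_eq_mul, mul_one] at h7
    -- the characteristic is zero
    have h8 : AdjoinRoot.mk (cyclotomic p ℤ) (C (p : ℤ)) = 0 := by
      rw [← h7]
      change mk p (C (p : ℤ)) = _
      simp
    rw [AdjoinRoot.mk_eq_zero] at h8
    have h9 : (C (p : ℤ) : ℤ[X]) ≠ 0 := C_ne_zero.2 (Nat.cast_ne_zero.2 hp.out.ne_zero)
    have h10 := natDegree_le_of_dvd h8 h9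
    rw [natDegree_C, natDegree_cyclotomic, Nat.totient_prime hp.out] at h10
    have := hp.out.two_le
    omega
  have h4 := geom_sum_mul (zr p ^ (p - 1)) p
  rw [← pow_mul, mul_comm (p - 1), pow_mul, h1, one_pow, sub_self] at h4
  exact (mul_eq_zero.1 h4).resolve_right h3

/-- complex conjugation -/
noncomputable def tau (p : ℕ) [hp : Fact p.Prime] : AA p →+* AA p := lft _ sum_conj

theorem rhoK_tau {K : Type} [Field K] [CharP K p] (x : AA p) : rhoK p K (tau p x) = rhoK p K x := by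
  obtain ⟨P, rfl⟩ := exists_mk x
  rw [tau, lft_mk, hom_eval₂, map_pow, rhoK_zr, one_pow, rhoK, lft_mk]
  congr 1
  exact RingHom.ext_int _ _

theorem tau_pi {K : Type} [Field K] [CharP K p] :
    ∃ ε : AA p, tau p (pi p) = pi p * ε ∧ rhoK p K ε ≠ 0 := by
  refine ⟨∑ i ∈ Finset.range (p - 1), zr p ^ i, ?_, ?_⟩
  · rw [tau, lft_pi, pi, mul_comm]
    exact (geom_sum_mul (zr p) (p - 1)).symm
  · rw [map_sum]
    simp only [map_pow, rhoK_zr, one_pow, Finset.sum_const, Finset.card_range, nsmul_eq_mul,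
      mul_one]
    rw [Nat.cast_sub hp.out.one_le, CharP.cast_eq_zero K p]
    simp

end tau

end Pool.Agent.H856.SM
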