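import Pool.Agent.H856.SM.LocW
import Pool.Agent.H856.SO.Rat

set_option autoImplicit false
set_option linter.unusedSectionVars false
set_option linter.unusedVariables false

/-!
# The shape of the reductions
-/

namespace Pool.Agent.H856.SM

open Pool.Agent.H425 Pool.Agent.H856.DW Pool.Agent.H856.DW.S0 Polynomial

section field

variable {K : Type} [Field K]

theorem sq_aux [IsAlgClosed K] (R : K[X]) (hR0 : R ≠ 0) (μ : ℕ)
    (hR : ∀ x : K, x ≠ 0 → R.rootMultiplicity x ≤ μ) (u : K) (hu : u ≠ 0) (r : ℕ) (t : K[X])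
    (h : t ^ (μ + 1) ∣ C u * (X ^ r * R)) : t.natTrailingDegree = t.natDegree := by
  have hXr : (X ^ r : K[X]) ≠ 0 := pow_ne_zero _ X_ne_zero
  have h0 : C u * (X ^ r * R) ≠ 0 := mul_ne_zero (C_ne_zero.2 hu) (mul_ne_zero hXr hR0)
  have ht : t ≠ 0 := by
    rintro rfl
    rw [zero_pow (Nat.succ_ne_zero μ), zero_dvd_iff] at h
    exact h0 h
  obtain ⟨q, hq, hnd⟩ := exists_eq_pow_rootMultiplicity_mul_and_not_dvd t ht 0
  rw [C_0, sub_zero] at hq hnd
  have hq0 : q ≠ 0 := by
    rintro rfl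
    exact hnd (dvd_zero _)
  have h4 : q.natDegree = 0 := by
    by_contra hne
    obtain ⟨x, hx⟩ := IsAlgClosed.exists_root q (by
      intro h1
      exact hne (natDegree_eq_of_degree_eq_some h1))
    have hx0 : x ≠ 0 := by
      rintro rfl
      apply hnd
      rw [X_dvd_iff, coeff_zero_eq_eval_zero]
      exact hx
    have h1 : (X - C x) ^ (μ + 1) ∣ C u * (X ^ r * R) := by
      refine dvd_trans (pow_dvd_pow_of_dvd ?_ _) h
      rw [hq]
      exact Dvd.dvd.mul_left (dvd_iff_isRoot.2 hx) _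
    rw [← le_rootMultiplicity_iff h0, rootMultiplicity_mul h0, rootMultiplicity_C, zero_add,
      rootMultiplicity_mul (mul_ne_zero hXr hR0)] at h1
    have h2 : (X ^ r : K[X]).rootMultiplicity x = 0 := by
      apply rootMultiplicity_eq_zero
      rw [IsRoot, eval_pow, eval_X]
      exact pow_ne_zero _ hx0
    have h3 := hR x hx0
    omega
  have h5 : q.natTrailingDegree = 0 := by
    have := natTrailingDegree_le_natDegree q
    omega
  rw [hq, natTrailingDegree_mul (pow_ne_zero _ X_ne_zero) hq0, natDegree_mul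
    (pow_ne_zero _ X_ne_zero) hq0, h4, h5, natDegree_X_pow, natTrailingDegree_X_pow]

theorem comp_back (P : K[X]) (c : K) (hc : c ≠ 0) : (P.comp (C c * X)).comp (C c⁻¹ * X) = P := by
  rw [comp_assoc, mul_comp, C_comp, X_comp, ← mul_assoc, ← C_mul, mul_inv_cancel₀ hc, C_1,
    one_mul, comp_X]

theorem natDegree_cx (c : K) (hc : c ≠ 0) (P : K[X]) : (P.comp (C c * X)).natDegree = P.natDegree := by
  rw [natDegree_comp, natDegree_C_mul_X c hc, mul_one]

theorem coeff_zero_cx (c : K) (P : K[X]) : (P.comp (C c * X)).coeff 0 = P.coeff 0 := by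
  rw [comp_C_mul_X_coeff, pow_zero, mul_one]

end field

/-- the shape of one reduction -/
theorem UU_shape (p d e : ℕ) [hp : Fact p.Prime] {K : Type} [Field K] [IsAlgClosed K] [CharP K p]
    (G : K[X]) (w m μ : ℕ) (hd : 0 < d) (hw : w ≤ d)
    (hmul : ∀ x : K, x ≠ 0 → (nw p d G w m).charpoly.rootMultiplicity x ≤ μ) (u : K) (hu : u ≠ 0) :
    (C u * UU p d e G w m).natDegree = rr d e w + (w - 1) ∧
    (∀ t : K[X], t ^ (μ + 1) ∣ C u * UU p d e G w m → t.natTrailingDegree = t.natDegree) ∧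
    ((nw p d G w m).det ≠ 0 → (C u * UU p d e G w m).natTrailingDegree = rr d e w) := by
  set c : K := (-(((((p - 1) * w / d).factorial : ℕ) : K)⁻¹)) ^ (m + 1) with hc
  have hc0 : c ≠ 0 := by
    refine pow_ne_zero _ (neg_ne_zero.2 (inv_ne_zero (fac_ne hp.out ?_)))
    have h3 : (p - 1) * w / d ≤ (p - 1) * d / d :=
      Nat.div_le_div_right (Nat.mul_le_mul_left _ hw)
    rw [Nat.mul_div_cancel _ hd] at h3
    have := hp.out.one_lt
    omega
  have hε : ((-1 : K) ^ (m + 1)) ≠ 0 := pow_ne_zero _ (neg_ne_zero.2 one_ne_zero)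
  set Q := (c • nw p d G w m).charpoly.comp (C ((-1) ^ (m + 1)) * X) with hQ
  have hQmul : ∀ x : K, x ≠ 0 → Q.rootMultiplicity x ≤ μ := by
    intro x hx
    rw [hQ, SO.rootMultiplicity_scale _ _ hε]
    have h1 : (-1) ^ (m + 1) * x = c * (c⁻¹ * ((-1) ^ (m + 1) * x)) := by
      rw [← mul_assoc, mul_inv_cancel₀ hc0, one_mul]
    rw [h1, SO.charpoly_smul _ _ hc0]
    exact hmul _ (mul_ne_zero (inv_ne_zero hc0) (mul_ne_zero hε hx))
  have hQ0 : Q ≠ 0 := by
    intro h
    have h1 : (c • nw p d G w m).charpoly = 0 := by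
      rw [← comp_back (c • nw p d G w m).charpoly _ hε, ← hQ, h, zero_comp]
    exact (Matrix.charpoly_monic _).ne_zero h1
  have hUU : UU p d e G w m = X ^ rr d e w * Q := rfl
  have hXr : (X ^ rr d e w : K[X]) ≠ 0 := pow_ne_zero _ X_ne_zero
  refine ⟨?_, ?_, ?_⟩
  · rw [natDegree_C_mul hu, hUU, natDegree_mul hXr hQ0, natDegree_X_pow, hQ, natDegree_cx _ hε,
      Matrix.charpoly_natDegree_eq_dim, Fintype.card_fin]
  · intro t ht
    rw [hUU] at ht
    exact sq_aux Q hQ0 μ hQmul u hu _ t ht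
  · intro hdet
    rw [hUU, natTrailingDegree_mul (C_ne_zero.2 hu) (mul_ne_zero hXr hQ0), natTrailingDegree_C,
      zero_add, natTrailingDegree_mul hXr hQ0, natTrailingDegree_X_pow]
    have h1 : Q.coeff 0 ≠ 0 := by
      rw [hQ, coeff_zero_cx]
      intro h3
      have h4 := Matrix.det_eq_sign_charpoly_coeff (c • nw p d G w m)
      rw [h3, mul_zero, Matrix.det_smul] at h4
      exact (mul_ne_zero (pow_ne_zero _ hc0) hdet) h4
    have h2 : Q.natTrailingDegree = 0 := by
      have := natTrailingDegree_le_of_ne_zero h1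
      omega
    rw [h2, add_zero]

theorem UU_ne (p d e : ℕ) [hp : Fact p.Prime] {K : Type} [Field K] [CharP K p] (G : K[X])
    (w m : ℕ) : UU p d e G w m ≠ 0 := by
  rw [UU]
  refine mul_ne_zero (pow_ne_zero _ X_ne_zero) ?_
  intro h
  have hε : ((-1 : K) ^ (m + 1)) ≠ 0 := pow_ne_zero _ (neg_ne_zero.2 one_ne_zero)
  have h1 := comp_back (((-(((((p - 1) * w / d).factorial : ℕ) : K)⁻¹)) ^ (m + 1)) •
    nw p d G w m).charpoly _ hε
  rw [h, zero_comp] at h1
  exact (Matrix.charpoly_monic _).ne_zero h1.symm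

/-- the recursion for the number of indices above a level -/
theorem rr_succ (d e w : ℕ) : rr d e w = rr d e (w + 1) +
    Fintype.card {i : Fin 2 → Fin e // lv d i = w + 1} := by
  classical
  have h0 : (∑ k ∈ Finset.univ.image (lv d : (Fin 2 → Fin e) → ℕ),
      if k = w + 1 then Fintype.card {i : Fin 2 → Fin e // lv d i = k} else 0) =
      Fintype.card {i : Fin 2 → Fin e // lv d i = w + 1} := by
    rw [Finset.sum_ite_eq']
    split_ifs with h
    · rfl
    · have : IsEmpty {i : Fin 2 → Fin e // lv d i = w + 1} :=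
        ⟨fun i => h (Finset.mem_image.2 ⟨i.1, Finset.mem_univ _, i.2⟩)⟩
      rw [Fintype.card_eq_zero]
  rw [← h0, rr, rr, ← Finset.sum_add_distrib]
  refine Finset.sum_congr rfl fun k _ => ?_
  by_cases h1 : w < k
  · by_cases h2 : k = w + 1
    · rw [if_pos h1, if_neg (by omega), if_pos h2, zero_add]
    · rw [if_pos h1, if_pos (by omega), if_neg h2, add_zero]
  · rw [if_neg h1, if_neg (by omega), if_neg (by omega)]

theorem rr_one (d e : ℕ) (hd : 1 ≤ d) : rr d e 1 = Fintype.card (Fin 2 → Fin e) := by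
  classical
  rw [rr]
  have h1 : ∀ k ∈ Finset.univ.image (lv d : (Fin 2 → Fin e) → ℕ),
      (if 1 < k then Fintype.card {i : Fin 2 → Fin e // lv d i = k} else 0) =
      (Finset.univ.filter fun i : Fin 2 → Fin e => lv d i = k).card := by
    intro k hk
    obtain ⟨i, _, hi⟩ := Finset.mem_image.1 hk
    rw [if_pos, Fintype.card_subtype]
    rw [← hi, lv]
    exact lt_min (by omega) (by omega)
  rw [Finset.sum_congr rfl h1, ← Finset.card_univ]
  exact (Finset.card_eq_sum_card_image _ _).symm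

end Pool.Agent.H856.SM
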