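import Pool.Agent.H856.SM.Ring

set_option autoImplicit false
set_option linter.unusedSectionVars false
set_option linter.unusedVariables false

/-!
# From the truncated rings to `ℤ[ζ_p]`, all slopes at most one
-/

namespace Pool.Agent.H856.SM

open Pool.Agent.H425 Pool.Agent.H856.DW Polynomial

namespace S0

variable {p d : ℕ} [hp : Fact p.Prime] {K R : Type} [Field K] [CommRing R] [IsDomain R]
  (S : Setup p d K R) [CharP K p]

/-- the map to the truncated ring -/
noncomputable def phi (hp5 : 5 ≤ p) (hd : 1 ≤ d) (N : ℕ) : AA p →+* S.Q N :=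
  lft (S.zet N) (S.zet_cyclo hp5 hd N)

variable (hp5 : 5 ≤ p) (hd : 1 ≤ d)

theorem phi_pi (N : ℕ) : ∃ u : R, S.res u = 1 ∧
    phi S hp5 hd N (pi p) = S.rd N (S.lam ^ d * u) := by
  obtain ⟨u, h1, h2⟩ := S.zet_sub_one hp5 hd N
  exact ⟨u, h1, by rw [phi, lft_pi, h2]⟩

theorem rho_phi (N : ℕ) (hN : 1 ≤ N) (x : AA p) :
    S.rho N hN (phi S hp5 hd N x) = rhoK p K x := by
  obtain ⟨P, rfl⟩ := exists_mk x
  obtain ⟨u, h1, h2⟩ := S.zet_sub_one hp5 hd N
  have hrz : S.rho N hN (S.zet N) = 1 := by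
    have h1 := congrArg (S.rho N hN) h2
    rw [map_sub, map_one, S.rho_rd, map_mul, map_pow, S.res_lam, zero_pow (by omega), zero_mul,
      sub_eq_zero] at h1
    exact h1
  rw [phi, lft_mk, hom_eval₂, hrz, rhoK, lft_mk]
  congr 1
  exact RingHom.ext_int _ _

theorem rd_surj (N : ℕ) : Function.Surjective (S.rd N) := Ideal.Quotient.mk_surjective

theorem rd_cancel (N a : ℕ) (ha : a < N) (x y : R)
    (h : S.rd N (S.lam ^ a * x) = S.rd N (S.lam ^ a * y)) : S.res x = S.res y := by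
  have h1 : S.rd N (S.lam ^ a * (x - y)) = 0 := by
    rw [mul_sub, map_sub, h, sub_self]
  by_contra hne
  exact S.ord_ne_zero (u := x - y) (by rw [map_sub]; exact sub_ne_zero.2 hne) ha h1

/-- comparison of two polynomials in the truncated ring -/
theorem poly_cancel (N a b : ℕ) (ha : a < N) (hb : b < N) (P Q : R[X])
    (hP : P.map S.res ≠ 0) (hQ : Q.map S.res ≠ 0)
    (h : (C (S.lam ^ a) * P).map (S.rd N) = (C (S.lam ^ b) * Q).map (S.rd N)) :
    a = b ∧ P.map S.res = Q.map S.res := by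
  have hc : ∀ i, S.rd N (S.lam ^ a * P.coeff i) = S.rd N (S.lam ^ b * Q.coeff i) := by
    intro i
    have h1 := congrArg (fun F : (S.Q N)[X] => F.coeff i) h
    simpa only [coeff_map, coeff_C_mul] using h1
  have hab : a = b := by
    obtain ⟨i, hi⟩ := exists_coeff hP
    obtain ⟨j, hj⟩ := exists_coeff hQ
    rw [coeff_map] at hi hj
    exact le_antisymm (S.ord_lt hj hb (hc j).symm) (S.ord_lt hi ha (hc i))
  refine ⟨hab, Polynomial.ext fun i => ?_⟩
  rw [coeff_map, coeff_map]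
  refine rd_cancel S N a ha _ _ ?_
  rw [hc i, hab]

/-- **the transfer of one reduction** -/
theorem transfer (hp3 : 3 ≤ p) (V : Vl (pi p) (rhoK p K)) (Pt : (AA p)[X]) (hPt : Pt ≠ 0)
    (j a : ℕ) (v : R) (hv : S.res v ≠ 0) (E : ℕ) (U : K[X]) (hU : U ≠ 0)
    (h : ∀ N, 1 ≤ N → ∃ M : R[X], Pt.map (phi S hp5 hd N) =
        (C (S.lam ^ a * v) * M).map (S.rd N) ∧
      (∀ u : R, S.res u = 1 → ∃ (G : R[X]) (c : K), c ≠ 0 ∧
        M.comp (C (S.lam ^ (d * j) * u) * X) = C (S.lam ^ E) * G ∧ G.map S.res = C c * U)) :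
    ∃ (Pw : (AA p)[X]) (c : K), c ≠ 0 ∧ Red (pi p) (rhoK p K) Pt j Pw ∧
      Pw.map (rhoK p K) = C c * U := by
  obtain ⟨Pw, n, h1, h2⟩ := Red.exists V Pt hPt j
  set N := d * n + (a + E) + 1 with hN
  have hN1 : 1 ≤ N := by omega
  obtain ⟨M, h3, h4⟩ := h N hN1
  obtain ⟨u, hu, hpi⟩ := phi_pi S hp5 hd N
  obtain ⟨G, c, hc, h5, h6⟩ := h4 (u ^ j) (by rw [map_pow, hu, one_pow])
  refine ⟨Pw, S.res v * c, mul_ne_zero hv hc, ⟨n, h1, h2⟩, ?_⟩
  obtain ⟨H, hH⟩ := Polynomial.map_surjective _ (rd_surj S N) (Pw.map (phi S hp5 hd N))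
  have hHres : H.map S.res = Pw.map (rhoK p K) := by
    have e1 := congrArg (Polynomial.map (S.rho N hN1)) hH
    rw [Polynomial.map_map, Polynomial.map_map] at e1
    have e2 : (S.rho N hN1).comp (S.rd N) = S.res := RingHom.ext fun x => S.rho_rd N hN1 x
    have e3 : (S.rho N hN1).comp (phi S hp5 hd N) = rhoK p K :=
      RingHom.ext fun x => rho_phi S hp5 hd N hN1 x
    rw [e2, e3] at e1
    exact e1
  have h7 : (Pt.map (phi S hp5 hd N)).comp (C ((S.rd N (S.lam ^ d * u)) ^ j) * X) =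
      C ((S.rd N (S.lam ^ d * u)) ^ n) * H.map (S.rd N) := by
    have e0 := congrArg (Polynomial.map (phi S hp5 hd N)) h1
    rw [← hpi, hH]
    simpa only [Polynomial.map_comp, Polynomial.map_mul, Polynomial.map_pow, map_C, map_X,
      map_pow] using e0
  have h8 : ((C (S.lam ^ (a + E)) * (C v * G)).map (S.rd N)) =
      ((C (S.lam ^ (d * n)) * (C (u ^ n) * H)).map (S.rd N)) := by
    have e1 : C (S.lam ^ (a + E)) * (C v * G) =
        (C (S.lam ^ a * v) * M).comp (C (S.lam ^ (d * j) * u ^ j) * X) := by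
      rw [mul_comp, C_comp, h5, pow_add]
      simp only [C_mul]
      ring
    have e2 : (C (S.lam ^ (d * j) * u ^ j) * X : R[X]).map (S.rd N) =
        C ((S.rd N (S.lam ^ d * u)) ^ j) * X := by
      rw [Polynomial.map_mul, map_C, map_X, ← map_pow (S.rd N), mul_pow, ← pow_mul]
    have e3 : S.rd N (S.lam ^ d * u) ^ n = S.rd N (S.lam ^ (d * n)) * S.rd N (u ^ n) := by
      rw [← map_pow, mul_pow, ← pow_mul, map_mul]
    rw [e1, Polynomial.map_comp, e2, ← h3, h7, e3, Polynomial.map_mul, Polynomial.map_mul, map_C,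
      map_C, C_mul, mul_assoc]
  have hne1 : (C v * G).map S.res ≠ 0 := by
    rw [Polynomial.map_mul, map_C, h6]
    exact mul_ne_zero (C_ne_zero.2 hv) (mul_ne_zero (C_ne_zero.2 hc) hU)
  have hne2 : (C (u ^ n) * H).map S.res ≠ 0 := by
    rw [Polynomial.map_mul, map_C, map_pow, hu, one_pow, C_1, one_mul, hHres]
    exact h2
  obtain ⟨_, h9⟩ := poly_cancel S N _ _ (by omega) (by omega) _ _ hne1 hne2 h8
  rw [Polynomial.map_mul, map_C, h6, Polynomial.map_mul, map_C, map_pow, hu, one_pow, C_1, one_mul,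
    hHres] at h9
  rw [← h9, C_mul, mul_assoc]

end S0

end Pool.Agent.H856.SM
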